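import Pool.Agent.Lib.MP_b4205f_al.H76.Lift
import Mathlib.MeasureTheory.Measure.Lebesgue.Basic
import Mathlib.MeasureTheory.Integral.IntervalIntegral.Basic
import Mathlib.Analysis.SpecialFunctions.Pow.Real
import Mathlib.Topology.Bornology.Basic

/-!
Project CHAIN (MP_b4205f_al): definitions and statements of the modules.
See `Paper.md` in this folder.
-/

namespace Pool.Agent.Lib.MP_b4205f_al.CH

open MeasureTheory Pool.Agent.Lib.MP_b4205f_al.H22 Pool.Agent.Lib.MP_b4205f_al.H76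

/-- label of the class of `(x, y)` under powers of the upper matrix -/
def labA (p n : ℤ) (q : ℤ × ℤ) : ℤ × ℤ :=
  if n ∣ q.2 then (q.2 / n, q.1 % (p * |q.2 / n|)) else (q.2, (n * q.1) % (p * |q.2|))

/-- label of the class of `(x, y)` under powers of the lower matrix -/
def labB (p n : ℤ) (q : ℤ × ℤ) : ℤ × ℤ := labA p n (q.2, q.1)

/-- `Good p n U Y R`: the decreasing chain starting from the hub `(Y, R mod pY)` reaches a hub of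
height at most `U`. -/
inductive Good (p n U : ℤ) : ℤ → ℤ → Prop
  | low (Y R : ℤ) (h0 : Y ≠ 0) (h1 : |Y| ≤ U) : Good p n U Y R
  | step (Y R W : ℤ) (h0 : W ≠ 0) (h1 : |W| < |Y|) (h2 : p * Y ∣ R - W)
      (h3 : Good p n U W (n ^ 2 * Y)) : Good p n U Y R

/-- the next value `n^2 w - p m z` -/
noncomputable def nxt (p n : ℕ) (m : ℤ) (w z : ℝ) : ℝ := (n : ℝ) ^ 2 * w - (p : ℝ) * (m : ℝ) * z

/-- the bound `n^4 + 1` for the exponents `m` -/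
def BB (n : ℕ) : ℕ := n ^ 4 + 1

/-- real chains: `w` is the current hub, `z` the next one -/
def HH (p n : ℕ) : ℕ → ℝ → ℝ → Prop
  | 0, w, z => 1 < |w| ∧ 0 < |z| ∧ |z| ≤ 1
  | K + 1, w, z => (1 < |w| ∧ 0 < |z| ∧ |z| ≤ 1) ∨
      (1 < |z| ∧ |z| < |w| ∧ ∃ m ∈ Finset.Icc (-(BB n : ℤ)) (BB n : ℤ),
        HH p n K z (nxt p n m w z))

/-- the region of the marked pairs `(x, y)` with `|y| > 1` (scaled by `1/U`) -/
def RR (p n K : ℕ) (x y : ℝ) : Prop :=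
  0 < |x| ∧ |x| ≤ 1 ∧ 1 < |y| ∧ |y| ≤ (n : ℝ) ^ 2 * |x| ∧
    ∃ m ∈ Finset.Icc (-(BB n : ℤ)) (BB n : ℤ), HH p n K y (nxt p n m x y)

/-- `M = n^2 / p` -/
noncomputable def MM (p n : ℕ) : ℝ := (n : ℝ) ^ 2 / p

/-- the exponent `beta' = 2 n^2 / (p (n^2 + 2))` -/
noncomputable def be (p n : ℕ) : ℝ := 2 * (n : ℝ) ^ 2 / (p * ((n : ℝ) ^ 2 + 2))

/-- the density `phi` -/
noncomputable def ph (p n : ℕ) (y : ℝ) : ℝ :=
  if y ≤ MM p n then 2 / (p * y) - 2 / (n : ℝ) ^ 2 else 0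

/-- the test function `s` -/
noncomputable def ss (p n : ℕ) (y : ℝ) : ℝ :=
  if y ≤ MM p n then be p n / ((1 + be p n) * MM p n) * ((MM p n / y) ^ (1 + be p n) - 1) else 0

/-- the constant `Q(1) = (M^be + be / M) / (1 + be)` -/
noncomputable def QQ (p n : ℕ) : ℝ := (MM p n ^ be p n + be p n / MM p n) / (1 + be p n)

/-- the functional `J_K f` -/
noncomputable def JJ (p n K : ℕ) (f : ℝ → ℝ) : ENNReal :=
  ∫⁻ q in {q : ℝ × ℝ | HH p n K q.1 q.2}, ENNReal.ofReal (f |q.1|)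

/-! ### Statements -/

/-- module KEY -/
def KEY_S : Prop := ∀ p n : ℕ, 1 ≤ p → 2 ≤ n → Function.Injective (phi ((p : ℚ) / n)) →
  ∀ P : Finset (ℤ × ℤ), (∀ q ∈ P, q.1 ≠ 0 ∧ q.2 ≠ 0 ∧ ¬ ((n : ℤ) ∣ q.1 ∧ (n : ℤ) ∣ q.2)) →
    P.card ≤ (P.image (labA p n)).card + (P.image (labB p n)).card

/-- module HALL -/
def HALL_S : Prop := ∀ p n U : ℕ, 2 ≤ p → 2 ≤ n → 1 ≤ U →
  Function.Injective (phi ((p : ℚ) / n)) →
  ∀ S : Finset (ℤ × ℤ), (∀ q ∈ S, q.1 ≠ 0 ∧ |q.1| ≤ U ∧ q.2 ≠ 0 ∧ ¬ (n : ℤ) ∣ q.2 ∧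
      (|q.2| ≤ U ∨ (|q.2| ≤ (n : ℤ) ^ 2 * |q.1| ∧ Good p n U q.2 ((n : ℤ) ^ 2 * q.1)))) →
    S.card ≤ p * (U * (U + 1))

/-- module GRID: sums of a nonincreasing function over the points of a grid beyond `y`. -/
def GRID_S : Prop := ∀ (f : ℝ → ℝ) (y M δ τ : ℝ) (B : ℕ), 0 < δ → 0 < y → y ≤ M →
  AntitoneOn f (Set.Icc y M) → (∀ x, 0 ≤ f x) → (∀ x, M < x → f x = 0) →
  |τ| + M ≤ δ * B →
  1 / δ * (∫ x in y..M, f x) - f y ≤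
    ∑ m ∈ Finset.Icc (-(B : ℤ)) (B : ℤ),
      if y < τ + δ * (m : ℝ) then f (τ + δ * (m : ℝ)) else 0

/-- module ODE: `s` is nonnegative, nonincreasing on `[1, M]`, vanishes beyond `M`, its integral
is `Q(1) - 1` and `s = phi + L s`. -/
def ODE_S : Prop := ∀ p n : ℕ, 2 ≤ p → 2 ≤ n → p < n ^ 2 →
  (∀ y, 0 < y → 0 ≤ ss p n y) ∧ (∀ y, 1 ≤ y → 0 ≤ ph p n y) ∧
  AntitoneOn (ss p n) (Set.Ici 1) ∧
  (∫ y in (1 : ℝ)..MM p n, ss p n y) = QQ p n - 1 ∧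
  ∀ y, 1 ≤ y → y ≤ MM p n →
    ss p n y = ph p n y + 2 / (p * y) * (∫ x in y..MM p n, ss p n x) - 2 / (n : ℝ) ^ 2 * ss p n y

/-- module PT: the pointwise inequality -/
def PT_S : Prop := ∀ p n : ℕ, 2 ≤ p → 2 ≤ n → p < n ^ 2 → ∀ z t : ℝ, 1 < |z| → |t| < |z| →
  ss p n |z| ≤ ph p n |z| + ∑ m ∈ Finset.Icc (-(BB n : ℤ)) (BB n : ℤ),
    1 / (n : ℝ) ^ 2 * (if |z| < |(t + (p : ℝ) * (m : ℝ) * z) / (n : ℝ) ^ 2| then
      ss p n |(t + (p : ℝ) * (m : ℝ) * z) / (n : ℝ) ^ 2| else 0)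

/-- module MEAS: the sets are measurable, increasing in `K`, and `|z| < |w|` on them -/
def MEAS_S : Prop := ∀ p n K : ℕ,
  MeasurableSet {q : ℝ × ℝ | HH p n K q.1 q.2} ∧ MeasurableSet {q : ℝ × ℝ | RR p n K q.1 q.2} ∧
  (∀ w z, HH p n K w z → HH p n (K + 1) w z) ∧
  (∀ w z, HH p n K w z → 1 < |w| ∧ 0 < |z| ∧ |z| < |w|)

/-- module REC: the recursion -/
def REC_S : Prop := ∀ p n K : ℕ, 2 ≤ p → 2 ≤ n → p < n ^ 2 →
  JJ p n K (ss p n) + ENNReal.ofReal (4 * ∫ y in (1 : ℝ)..MM p n, ss p n y) ≤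
    JJ p n (K + 1) (ss p n) + JJ p n K (ph p n)

/-- module VOL: the area of the marked region -/
def VOL_S : Prop := ∀ p n K : ℕ, 2 ≤ p → 2 ≤ n → p < n ^ 2 →
  JJ p n K (ph p n) ≤ volume {q : ℝ × ℝ | RR p n K q.1 q.2}

/-- module AREA -/
def AREA_S : Prop := ∀ p n : ℕ, 2 ≤ p → 2 ≤ n → p < n ^ 2 → ∀ ε : ℝ, 0 < ε → ∃ K : ℕ,
  4 * (QQ p n - 1) - ε ≤ (volume {q : ℝ × ℝ | RR p n K q.1 q.2}).toReal

/-- the full region: the box and the marked region -/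
def TT (p n K : ℕ) (x y : ℝ) : Prop := (0 < |x| ∧ |x| ≤ 1 ∧ 0 < |y| ∧ |y| ≤ 1) ∨ RR p n K x y

/-- module FRONT: bounded, measurable, the frontier is a null set -/
def FRONT_S : Prop := ∀ p n K : ℕ, 1 ≤ n →
  Bornology.IsBounded {q : ℝ × ℝ | TT p n K q.1 q.2} ∧
  MeasurableSet {q : ℝ × ℝ | TT p n K q.1 q.2} ∧
  volume (frontier {q : ℝ × ℝ | TT p n K q.1 q.2}) = 0

/-- module LATT: lattice points in a planar region -/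
def LATT_S : Prop := ∀ (T : Set (ℝ × ℝ)) (n : ℕ), 1 ≤ n → Bornology.IsBounded T →
  MeasurableSet T → volume (frontier T) = 0 → ∀ ε : ℝ, 0 < ε → ∃ U0 : ℕ, ∀ U : ℕ, U0 ≤ U →
    ∃ S : Finset (ℤ × ℤ), (∀ q ∈ S, ((q.1 : ℝ) / U, (q.2 : ℝ) / U) ∈ T ∧ ¬ (n : ℤ) ∣ q.2) ∧
      ((1 - 1 / (n : ℝ)) * (volume T).toReal - ε) * (U : ℝ) ^ 2 ≤ S.card

/-- module RGOOD: from real chains to integer chains -/
def RGOOD_S : Prop := ∀ (p n K U : ℕ) (a b : ℤ), 1 ≤ U → RR p n K ((a : ℝ) / U) ((b : ℝ) / U) →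
  a ≠ 0 ∧ |a| ≤ U ∧ b ≠ 0 ∧ |b| ≤ (n : ℤ) ^ 2 * |a| ∧ Good p n U b ((n : ℤ) ^ 2 * a)

/-- module MAIN: the inequality for a free pair -/
def MAIN_S : Prop := ∀ p n : ℕ, 2 ≤ p → 2 ≤ n → p < n ^ 2 →
  Function.Injective (phi ((p : ℚ) / n)) → 4 * (1 - 1 / (n : ℝ)) * QQ p n ≤ p

/-- module NUM -/
def NUM_S : Prop := ∀ p n : ℕ, 4 ≤ p →
  2 * (p : ℝ) * (((p : ℝ) + 2) / 4) ^ ((p : ℝ) / 2) ≤ (n : ℝ) ^ 2 →
    p < n ^ 2 ∧ 2 ≤ n ∧ (p : ℝ) < 4 * (1 - 1 / (n : ℝ)) * QQ p n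

end Pool.Agent.Lib.MP_b4205f_al.CH
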