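import Pool.Agent.Lib.MP_b4205f_al.CH.Defs

/-!
Project CHAIN, module HALL: the number of marked pairs is at most the number of low labels.
-/

namespace Pool.Agent.Lib.MP_b4205f_al.CH

open Pool.Agent.Lib.MP_b4205f_al.H22 Pool.Agent.Lib.MP_b4205f_al.H76

lemma Good.ne_zero {p n U Y R : ℤ} (h : Good p n U Y R) : Y ≠ 0 := by
  cases h with
  | low _ _ h0 h1 => exact h0
  | step _ _ W h0 h1 h2 h3 =>
    intro h
    rw [h, abs_zero] at h1
    exact absurd h1 (not_lt.mpr (abs_nonneg _))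

lemma Good.congr {p n U Y R R' : ℤ} (h : Good p n U Y R) (hd : p * Y ∣ R - R') :
    Good p n U Y R' := by
  cases h with
  | low _ _ h0 h1 => exact Good.low _ _ h0 h1
  | step _ _ W h0 h1 h2 h3 =>
    refine Good.step _ _ W h0 h1 ?_ h3
    have h4 := dvd_sub h2 hd
    have h5 : R - W - (R - R') = R' - W := by ring
    rwa [h5] at h4

lemma Good.div_aux {p n U : ℤ} (hn : 1 ≤ n) {Y R : ℤ} (h : Good p n U Y R) :
    ∀ X T : ℤ, Y = n * X → R = n * T → Good p n U X T := by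
  have hn0 : n ≠ 0 := by omega
  induction h with
  | low Y R h0 h1 =>
    intro X T hY hR
    have hX : X ≠ 0 := by
      rintro rfl
      exact h0 (by rw [hY, mul_zero])
    apply Good.low _ _ hX
    rw [hY, abs_mul, abs_of_pos (by omega)] at h1
    have := abs_nonneg X
    nlinarith
  | step Y R W h0 h1 h2 h3 ih =>
    intro X T hY hR
    have hW : n ∣ W := by
      have h4 : n ∣ R - W := (Dvd.intro_left (p * X) (by rw [hY]; ring)).trans h2
      have h5 : n ∣ R := ⟨T, hR⟩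
      have h6 := dvd_sub h5 h4
      have h7 : R - (R - W) = W := by ring
      rwa [h7] at h6
    obtain ⟨V, hV⟩ := hW
    refine Good.step _ _ V ?_ ?_ ?_ ?_
    · rintro rfl
      exact h0 (by rw [hV, mul_zero])
    · rw [hV, hY, abs_mul, abs_mul, abs_of_pos (show (0 : ℤ) < n by omega)] at h1
      exact lt_of_mul_lt_mul_left h1 (by omega)
    · obtain ⟨c, hc⟩ := h2
      refine ⟨c, ?_⟩
      rw [hY, hR, hV] at hc
      have : n * (T - V) = n * (p * X * c) := by linarith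
      exact mul_left_cancel₀ hn0 this
    · exact ih V (n ^ 2 * X) hV (by rw [hY]; ring)

lemma Good.div {p n U X T : ℤ} (hn : 1 ≤ n) (h : Good p n U (n * X) (n * T)) :
    Good p n U X T := h.div_aux hn X T rfl rfl

lemma Good.parent {p n U Y R : ℤ} (h : Good p n U Y R) (hU : U < |Y|) :
    ∃ W : ℤ, W ≠ 0 ∧ |W| < |Y| ∧ p * Y ∣ R - W ∧ Good p n U W (n ^ 2 * Y) := by
  cases h with
  | low _ _ h0 h1 => omega
  | step _ _ W h0 h1 h2 h3 => exact ⟨W, h0, h1, h2, h3⟩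

/-- low labels -/
noncomputable def Low (p U : ℕ) : Finset (ℤ × ℤ) :=
  (Finset.Icc (-(U : ℤ)) (U : ℤ)).biUnion
    (fun X => (Finset.Ico (0 : ℤ) (p * |X|)).image (fun t => (X, t)))

lemma mem_Low {p U : ℕ} {g : ℤ × ℤ} :
    g ∈ Low p U ↔ |g.1| ≤ U ∧ 0 ≤ g.2 ∧ g.2 < p * |g.1| := by
  unfold Low
  simp only [Finset.mem_biUnion, Finset.mem_Icc, Finset.mem_image, Finset.mem_Ico]
  constructor
  · rintro ⟨X, ⟨h1, h2⟩, t, ⟨h3, h4⟩, rfl⟩
    exact ⟨abs_le.mpr ⟨h1, h2⟩, h3, h4⟩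
  · rintro ⟨h1, h2, h3⟩
    exact ⟨g.1, abs_le.mp h1, g.2, ⟨h2, h3⟩, rfl⟩

lemma sum_abs (U : ℕ) : ∑ X ∈ Finset.Icc (-(U : ℤ)) (U : ℤ), |X| = U * (U + 1) := by
  induction U with
  | zero => simp
  | succ k ih =>
    have h : Finset.Icc (-((k + 1 : ℕ) : ℤ)) ((k + 1 : ℕ) : ℤ) =
        insert ((k : ℤ) + 1) (insert (-((k : ℤ) + 1)) (Finset.Icc (-(k : ℤ)) (k : ℤ))) := by
      ext x
      simp only [Finset.mem_Icc, Finset.mem_insert]
      push_cast
      omega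
    rw [h, Finset.sum_insert, Finset.sum_insert, ih]
    · rw [abs_neg, abs_of_nonneg (by positivity)]
      push_cast
      ring
    · simp
    · simp only [Finset.mem_insert, Finset.mem_Icc]
      omega

lemma card_Low (p U : ℕ) : (Low p U).card ≤ p * (U * (U + 1)) := by
  have h1 : (Low p U).card ≤ ∑ X ∈ Finset.Icc (-(U : ℤ)) (U : ℤ), (p * X.natAbs) := by
    unfold Low
    refine Finset.card_biUnion_le.trans (Finset.sum_le_sum fun X _ => ?_)
    refine Finset.card_image_le.trans ?_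
    rw [Int.card_Ico]
    have : (p : ℤ) * |X| - 0 = ((p * X.natAbs : ℕ) : ℤ) := by
      push_cast
      rw [Int.abs_eq_natAbs]
      simp
    rw [this, Int.toNat_natCast]
  refine h1.trans ?_
  rw [← Finset.mul_sum]
  apply Nat.mul_le_mul_left
  have h2 := sum_abs U
  have h3 : ((∑ X ∈ Finset.Icc (-(U : ℤ)) (U : ℤ), X.natAbs : ℕ) : ℤ) = U * (U + 1) := by
    rw [← h2]
    push_cast
    rfl
  have h4 : (∑ X ∈ Finset.Icc (-(U : ℤ)) (U : ℤ), X.natAbs : ℕ) = U * (U + 1) := by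
    exact_mod_cast h3
  exact h4.le

/-- the finite set of reduced good labels above `U` -/
noncomputable def GG (p n U L : ℕ) : Finset (ℤ × ℤ) := by
  classical
  exact (Finset.Icc (-(L : ℤ)) L ×ˢ Finset.Icc (0 : ℤ) (p * L)).filter
    (fun g => (U : ℤ) < |g.1| ∧ 0 ≤ g.2 ∧ g.2 < p * |g.1| ∧
      ¬ ((n : ℤ) ∣ g.1 ∧ (n : ℤ) ∣ g.2) ∧ Good p n U g.1 g.2)

lemma mem_GG {p n U L : ℕ} {g : ℤ × ℤ} :
    g ∈ GG p n U L ↔ |g.1| ≤ L ∧ (U : ℤ) < |g.1| ∧ 0 ≤ g.2 ∧ g.2 < p * |g.1| ∧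
      ¬ ((n : ℤ) ∣ g.1 ∧ (n : ℤ) ∣ g.2) ∧ Good p n U g.1 g.2 := by
  classical
  unfold GG
  simp only [Finset.mem_filter, Finset.mem_product, Finset.mem_Icc]
  constructor
  · rintro ⟨⟨⟨h1, h2⟩, h3, h4⟩, h5, h6, h7, h8, h9⟩
    exact ⟨abs_le.mpr ⟨h1, h2⟩, h5, h6, h7, h8, h9⟩
  · rintro ⟨h1, h5, h6, h7, h8, h9⟩
    refine ⟨⟨abs_le.mp h1, h6, ?_⟩, h5, h6, h7, h8, h9⟩
    refine h7.le.trans ?_
    exact mul_le_mul_of_nonneg_left h1 (by positivity)

lemma lab_mem {p n U L : ℕ} (hp : 1 ≤ p) {Y R : ℤ} (h : Good p n U Y R) (hL : |Y| ≤ L)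
    (hr : ¬ ((n : ℤ) ∣ Y ∧ (n : ℤ) ∣ R)) : (Y, R % (p * |Y|)) ∈ GG p n U L ∪ Low p U := by
  have hY := h.ne_zero
  have hpY : (0 : ℤ) < p * |Y| := by
    have h1 : (0 : ℤ) < p := by exact_mod_cast hp
    have h2 : 0 < |Y| := abs_pos.mpr hY
    positivity
  have h1 : 0 ≤ R % (p * |Y|) := Int.emod_nonneg _ hpY.ne'
  have h2 : R % (p * |Y|) < p * |Y| := Int.emod_lt_of_pos _ hpY
  rw [Finset.mem_union, mem_GG, mem_Low]
  by_cases hU : |Y| ≤ U
  · right
    exact ⟨hU, h1, h2⟩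
  · left
    have hd : (p : ℤ) * |Y| ∣ R - R % (p * |Y|) := Int.dvd_self_sub_emod
    refine ⟨hL, not_le.mp hU, h1, h2, ?_, h.congr ?_⟩
    · rintro ⟨h3, h4⟩
      apply hr
      refine ⟨h3, ?_⟩
      have h5 : (n : ℤ) ∣ R - R % (p * |Y|) :=
        (dvd_mul_of_dvd_right ((dvd_abs _ _).mpr h3) _).trans hd
      have h6 := dvd_add h5 h4
      simpa using h6
    · refine dvd_trans ?_ hd
      exact mul_dvd_mul_left _ ((dvd_abs _ _).mpr dvd_rfl)

/-- the parent vector -/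
def pv (n : ℤ) (Y W : ℤ) : ℤ × ℤ := if n ∣ W then (W / n, Y) else (W, n * Y)

lemma emod_eq_of {a b m : ℤ} (h : m ∣ a - b) (h0 : 0 ≤ a) (h1 : a < m) : b % m = a := by
  have h2 : b % m = a % m := (Int.modEq_iff_dvd.mpr h)
  rw [h2, Int.emod_eq_of_lt h0 h1]

/-- the upper label of the parent vector -/
lemma labA_pv {p n : ℕ} (hn : 1 ≤ n) {Y R W : ℤ} (h2 : (p : ℤ) * Y ∣ R - W)
    (h0 : 0 ≤ R) (h1 : R < p * |Y|) (hr : ¬ ((n : ℤ) ∣ Y ∧ (n : ℤ) ∣ R)) :
    labA p n (pv n Y W) = (Y, R) := by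
  have hn0 : (n : ℤ) ≠ 0 := by omega
  have hd : (p : ℤ) * |Y| ∣ R - W := by
    rcases abs_choice Y with h | h
    · rwa [h]
    · rw [h]
      rw [show (p : ℤ) * -Y = -(p * Y) by ring]
      exact neg_dvd.mpr h2
  unfold pv labA
  by_cases hW : (n : ℤ) ∣ W
  · have hnY : ¬ (n : ℤ) ∣ Y := by
      intro hY'
      apply hr
      refine ⟨hY', ?_⟩
      have h3 : (n : ℤ) ∣ R - W := (dvd_mul_of_dvd_right hY' _).trans h2
      have h4 := dvd_add h3 hW
      simpa using h4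
    rw [if_pos hW]
    simp only
    rw [if_neg hnY, Int.mul_ediv_cancel' hW, emod_eq_of hd h0 h1]
  · rw [if_neg hW]
    simp only
    rw [if_pos (Dvd.intro _ rfl), Int.mul_ediv_cancel_left _ hn0, emod_eq_of hd h0 h1]

/-- the lower label of the parent vector -/
lemma labB_pv {p n U L : ℕ} (hp : 1 ≤ p) (hn : 1 ≤ n) {Y R W : ℤ} (hW0 : W ≠ 0)
    (hW : |W| ≤ L) (h2 : (p : ℤ) * Y ∣ R - W) (hg : Good p n U W ((n : ℤ) ^ 2 * Y))
    (hr : ¬ ((n : ℤ) ∣ Y ∧ (n : ℤ) ∣ R)) :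
    labB p n (pv n Y W) ∈ GG p n U L ∪ Low p U := by
  have hn0 : (n : ℤ) ≠ 0 := by omega
  have hn1 : (1 : ℤ) ≤ n := by omega
  have habs : ∀ V : ℤ, |V| ≤ |(n : ℤ) * V| := by
    intro V
    rw [abs_mul, abs_of_pos (show (0 : ℤ) < n by omega)]
    have := abs_nonneg V
    nlinarith
  unfold pv labB labA
  by_cases hWn : (n : ℤ) ∣ W
  · have hnY : ¬ (n : ℤ) ∣ Y := by
      intro hY'
      apply hr
      refine ⟨hY', ?_⟩
      have h3 : (n : ℤ) ∣ R - W := (dvd_mul_of_dvd_right hY' _).trans h2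
      have h4 := dvd_add h3 hWn
      simpa using h4
    rw [if_pos hWn]
    simp only
    obtain ⟨V, rfl⟩ := hWn
    rw [Int.mul_ediv_cancel_left _ hn0]
    have hg1 : Good p n U V ((n : ℤ) * Y) := by
      apply Good.div hn1
      rw [show (n : ℤ) * (n * Y) = n ^ 2 * Y by ring]
      exact hg
    have hV : |V| ≤ L := (habs V).trans hW
    by_cases hV2 : (n : ℤ) ∣ V
    · rw [if_pos hV2]
      obtain ⟨V2, rfl⟩ := hV2
      rw [Int.mul_ediv_cancel_left _ hn0]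
      exact lab_mem hp (Good.div hn1 hg1) ((habs V2).trans hV) (fun h => hnY h.2)
    · rw [if_neg hV2]
      exact lab_mem hp hg1 hV (fun h => hV2 h.1)
  · rw [if_neg hWn]
    simp only
    rw [if_neg hWn, show (n : ℤ) * (n * Y) = n ^ 2 * Y by ring]
    exact lab_mem hp hg hW (fun h => hWn h.1)

/-- properties of the parent vector -/
lemma pv_props {n : ℕ} (hn : 2 ≤ n) {p Y R W : ℤ} (hW0 : W ≠ 0) (hWY : |W| < |Y|)
    (h2 : p * Y ∣ R - W) (hr : ¬ ((n : ℤ) ∣ Y ∧ (n : ℤ) ∣ R)) :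
    (pv n Y W).1 ≠ 0 ∧ (pv n Y W).2 ≠ 0 ∧
      ¬ ((n : ℤ) ∣ (pv n Y W).1 ∧ (n : ℤ) ∣ (pv n Y W).2) ∧
      n * |(pv n Y W).1| < |(pv n Y W).2| := by
  have hn0 : (n : ℤ) ≠ 0 := by omega
  have hnpos : (0 : ℤ) < n := by omega
  have hY0 : Y ≠ 0 := by
    rintro rfl
    rw [abs_zero] at hWY
    exact absurd hWY (not_lt.mpr (abs_nonneg _))
  unfold pv
  by_cases hWn : (n : ℤ) ∣ W
  · have hnY : ¬ (n : ℤ) ∣ Y := by
      intro hY'
      apply hr
      refine ⟨hY', ?_⟩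
      have h3 : (n : ℤ) ∣ R - W := (dvd_mul_of_dvd_right hY' _).trans h2
      have h4 := dvd_add h3 hWn
      simpa using h4
    rw [if_pos hWn]
    simp only
    obtain ⟨V, rfl⟩ := hWn
    rw [Int.mul_ediv_cancel_left _ hn0]
    refine ⟨?_, hY0, fun h => hnY h.2, ?_⟩
    · rintro rfl
      exact hW0 (mul_zero _)
    · rw [abs_mul, abs_of_pos hnpos] at hWY
      exact hWY
  · rw [if_neg hWn]
    simp only
    refine ⟨hW0, mul_ne_zero hn0 hY0, fun h => hWn h.1, ?_⟩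
    rw [abs_mul, abs_of_pos hnpos]
    exact mul_lt_mul_of_pos_left hWY hnpos

theorem hall (hkey : KEY_S) : HALL_S := by
  intro p n U hp hn hU hinj S hS
  classical
  have hn0 : (n : ℤ) ≠ 0 := by omega
  have hnpos : (0 : ℤ) < n := by omega
  have hn1 : 1 ≤ n := by omega
  have hp1 : 1 ≤ p := by omega
  -- the bound of the heights
  set L : ℕ := n ^ 2 * U with hL
  have hUL : (U : ℤ) ≤ L := by
    rw [hL]
    push_cast
    have h1 : (1 : ℤ) ≤ (n : ℤ) ^ 2 := by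
      have : (1 : ℤ) ≤ n := by omega
      nlinarith
    have h2 : (0 : ℤ) ≤ U := by positivity
    nlinarith
  -- parents
  have hpar : ∀ g : ℤ × ℤ, ∃ W : ℤ, g ∈ GG p n U L →
      W ≠ 0 ∧ |W| < |g.1| ∧ (p : ℤ) * g.1 ∣ g.2 - W ∧ Good p n U W ((n : ℤ) ^ 2 * g.1) := by
    intro g
    by_cases hg : g ∈ GG p n U L
    · obtain ⟨W, hW⟩ := (mem_GG.mp hg).2.2.2.2.2.parent (mem_GG.mp hg).2.1
      exact ⟨W, fun _ => hW⟩
    · exact ⟨0, fun h => absurd h hg⟩
  choose W hW using hpar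
  set par : ℤ × ℤ → ℤ × ℤ := fun g => pv n g.1 (W g) with hpar
  set mu : ℤ × ℤ → ℤ × ℤ := fun q => (q.2, (n : ℤ) * q.1) with hmu
  set G := GG p n U L with hG
  have hparA : ∀ g ∈ G, labA p n (par g) = g := by
    intro g hg
    obtain ⟨h1, h2, h3, h4⟩ := hW g hg
    obtain ⟨k1, k2, k3, k4, k5, k6⟩ := mem_GG.mp hg
    exact labA_pv hn1 h3 k3 k4 k5
  have hparB : ∀ g ∈ G, labB p n (par g) ∈ G ∪ Low p U := by
    intro g hg
    obtain ⟨h1, h2, h3, h4⟩ := hW g hg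
    obtain ⟨k1, k2, k3, k4, k5, k6⟩ := mem_GG.mp hg
    exact labB_pv hp1 hn1 h1 (h2.le.trans k1) h3 h4 k5
  have hparP : ∀ g ∈ G, (par g).1 ≠ 0 ∧ (par g).2 ≠ 0 ∧
      ¬ ((n : ℤ) ∣ (par g).1 ∧ (n : ℤ) ∣ (par g).2) ∧ n * |(par g).1| < |(par g).2| := by
    intro g hg
    obtain ⟨h1, h2, h3, h4⟩ := hW g hg
    obtain ⟨k1, k2, k3, k4, k5, k6⟩ := mem_GG.mp hg
    exact pv_props hn h1 h2 h3 k5
  have hmuA : ∀ q ∈ S, labA p n (mu q) = (q.1, q.2 % (p * |q.1|)) := by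
    intro q hq
    simp only [hmu, labA]
    rw [if_pos (Dvd.intro _ rfl), Int.mul_ediv_cancel_left _ hn0]
  have hmuA' : ∀ q ∈ S, labA p n (mu q) ∈ Low p U := by
    intro q hq
    rw [hmuA q hq, mem_Low]
    obtain ⟨h1, h2, -⟩ := hS q hq
    have h3 : (0 : ℤ) < p * |q.1| := by
      have h4 : (0 : ℤ) < p := by omega
      have h5 : 0 < |q.1| := abs_pos.mpr h1
      positivity
    exact ⟨h2, Int.emod_nonneg _ h3.ne', Int.emod_lt_of_pos _ h3⟩
  have hmuB : ∀ q ∈ S, labB p n (mu q) ∈ G ∪ Low p U := by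
    intro q hq
    obtain ⟨h1, h2, h3, h4, h5⟩ := hS q hq
    simp only [hmu, labA, labB]
    rw [if_neg h4, show (n : ℤ) * (n * q.1) = n ^ 2 * q.1 by ring]
    rcases h5 with h5 | ⟨h5, h6⟩
    · exact lab_mem hp1 (Good.low _ _ h3 h5) (h5.trans hUL) (fun h => h4 h.1)
    · refine lab_mem hp1 h6 ?_ (fun h => h4 h.1)
      rw [hL]
      push_cast
      refine h5.trans ?_
      exact mul_le_mul_of_nonneg_left h2 (by positivity)
  -- the set of vectors
  set P1 := G.image par ∪ S.image mu with hP1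
  set P := P1 ∪ P1.image Prod.swap with hP
  have hparinj : Set.InjOn par G := by
    intro a ha b hb hab
    rw [← hparA a ha, ← hparA b hb, hab]
  have hmuinj : Set.InjOn mu S := by
    intro a ha b hb hab
    simp only [hmu, Prod.mk.injEq] at hab
    exact Prod.ext (mul_left_cancel₀ hn0 hab.2) hab.1
  have hdisj : Disjoint (G.image par) (S.image mu) := by
    rw [Finset.disjoint_left]
    intro v hv hv'
    obtain ⟨g, hg, rfl⟩ := Finset.mem_image.mp hv
    obtain ⟨q, hq, hqg⟩ := Finset.mem_image.mp hv'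
    have h1 := hparA g hg
    rw [← hqg, hmuA q hq] at h1
    have h2 := (mem_GG.mp hg).2.1
    rw [← h1] at h2
    have h3 := (hS q hq).2.1
    simp only at h2
    omega
  have hcardP1 : P1.card = G.card + S.card := by
    rw [hP1, Finset.card_union_of_disjoint hdisj, Finset.card_image_of_injOn hparinj,
      Finset.card_image_of_injOn hmuinj]
  have hswap : ∀ v ∈ P1, v.swap ∉ P1 := by
    intro v hv hv'
    rw [hP1, Finset.mem_union, Finset.mem_image, Finset.mem_image] at hv hv'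
    have mix : ∀ q ∈ S, ∀ g ∈ G, (mu q).swap ≠ par g := by
      intro q hq g hg h
      obtain ⟨h1, h2, h3, h4, h5⟩ := hS q hq
      have hlt := (hparP g hg).2.2.2
      rw [← h] at hlt
      simp only [hmu, Prod.swap_prod_mk] at hlt
      rcases h5 with h5 | ⟨h5, h6⟩
      · have h7 := hparA g hg
        rw [← h] at h7
        simp only [hmu, Prod.swap_prod_mk, labA] at h7
        rw [if_neg h4] at h7
        have h8 := (mem_GG.mp hg).2.1
        rw [← h7] at h8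
        simp only at h8
        omega
      · rw [abs_mul, abs_of_pos hnpos] at hlt
        nlinarith
    rcases hv with ⟨g, hg, rfl⟩ | ⟨q, hq, rfl⟩
    · rcases hv' with ⟨g', hg', h⟩ | ⟨q', hq', h⟩
      · have h1 := (hparP g hg).2.2.2
        have h2 := (hparP g' hg').2.2.2
        rw [h] at h2
        simp only [Prod.fst_swap, Prod.snd_swap] at h2
        have h3 := abs_nonneg (par g).1
        have h4 := abs_nonneg (par g).2
        have h5 : (2 : ℤ) ≤ n := by exact_mod_cast hn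
        nlinarith
      · apply mix q' hq' g hg
        rw [h, Prod.swap_swap]
    · rcases hv' with ⟨g', hg', h⟩ | ⟨q', hq', h⟩
      · exact mix q hq g' hg' h.symm
      · simp only [hmu, Prod.swap_prod_mk, Prod.mk.injEq] at h
        exact (hS q hq).2.2.2.1 ⟨q'.1, h.2.symm⟩
  have hcardP : P.card = 2 * (G.card + S.card) := by
    have hd : Disjoint P1 (P1.image Prod.swap) := by
      rw [Finset.disjoint_left]
      intro v hv hv'
      obtain ⟨w, hw, rfl⟩ := Finset.mem_image.mp hv'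
      exact hswap w hw hv
    rw [hP, Finset.card_union_of_disjoint hd,
      Finset.card_image_of_injective _ Prod.swap_injective, hcardP1]
    ring
  have hP1P : ∀ q ∈ P1, q.1 ≠ 0 ∧ q.2 ≠ 0 ∧ ¬ ((n : ℤ) ∣ q.1 ∧ (n : ℤ) ∣ q.2) := by
    intro v hv
    rw [hP1, Finset.mem_union, Finset.mem_image, Finset.mem_image] at hv
    rcases hv with ⟨g, hg, rfl⟩ | ⟨q, hq, rfl⟩
    · obtain ⟨h1, h2, h3, -⟩ := hparP g hg
      exact ⟨h1, h2, h3⟩
    · obtain ⟨h1, h2, h3, h4, h5⟩ := hS q hq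
      exact ⟨h3, mul_ne_zero hn0 h1, fun h => h4 h.1⟩
  have hlabA : ∀ v ∈ P1, labA p n v ∈ G ∪ Low p U := by
    intro v hv
    rw [hP1, Finset.mem_union, Finset.mem_image, Finset.mem_image] at hv
    rcases hv with ⟨g, hg, rfl⟩ | ⟨q, hq, rfl⟩
    · rw [hparA g hg]
      exact Finset.mem_union_left _ hg
    · exact Finset.mem_union_right _ (hmuA' q hq)
  have hlabB : ∀ v ∈ P1, labB p n v ∈ G ∪ Low p U := by
    intro v hv
    rw [hP1, Finset.mem_union, Finset.mem_image, Finset.mem_image] at hv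
    rcases hv with ⟨g, hg, rfl⟩ | ⟨q, hq, rfl⟩
    · exact hparB g hg
    · exact hmuB q hq
  have hmain := hkey p n hp1 hn hinj P (by
    intro q hq
    rw [hP, Finset.mem_union, Finset.mem_image] at hq
    rcases hq with hq | ⟨w, hw, rfl⟩
    · exact hP1P q hq
    · obtain ⟨h1, h2, h3⟩ := hP1P w hw
      exact ⟨h2, h1, fun h => h3 ⟨h.2, h.1⟩⟩)
  have hA : (P.image (labA p n)).card ≤ (G ∪ Low p U).card := by
    apply Finset.card_le_card
    intro l hl
    obtain ⟨v, hv, rfl⟩ := Finset.mem_image.mp hl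
    rw [hP, Finset.mem_union, Finset.mem_image] at hv
    rcases hv with hv | ⟨w, hw, rfl⟩
    · exact hlabA v hv
    · exact hlabB w hw
  have hB : (P.image (labB p n)).card ≤ (G ∪ Low p U).card := by
    apply Finset.card_le_card
    intro l hl
    obtain ⟨v, hv, rfl⟩ := Finset.mem_image.mp hl
    rw [hP, Finset.mem_union, Finset.mem_image] at hv
    rcases hv with hv | ⟨w, hw, rfl⟩
    · exact hlabB v hv
    · exact hlabA w hw
  have hUn : (G ∪ Low p U).card ≤ G.card + p * (U * (U + 1)) :=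
    (Finset.card_union_le _ _).trans (Nat.add_le_add_left (card_Low p U) _)
  rw [hcardP] at hmain
  omega

end Pool.Agent.Lib.MP_b4205f_al.CH
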