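import Pool.Agent.Lib.MP_b4205f_al.CH.Defs

/-!
Project CHAIN, module MAIN: `4 (1 - 1/n) QQ ≤ p` for a free pair.
-/

namespace Pool.Agent.Lib.MP_b4205f_al.CH

open MeasureTheory Pool.Agent.Lib.MP_b4205f_al.H22 Pool.Agent.Lib.MP_b4205f_al.H76

/-- area of the box without the coordinate axes -/
lemma box_area : volume {q : ℝ × ℝ | 0 < |q.1| ∧ |q.1| ≤ 1 ∧ 0 < |q.2| ∧ |q.2| ≤ 1} = 4 := by
  have h1 : {q : ℝ × ℝ | 0 < |q.1| ∧ |q.1| ≤ 1 ∧ 0 < |q.2| ∧ |q.2| ≤ 1} =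
      (Set.Icc (-1 : ℝ) 1 \ {0}) ×ˢ (Set.Icc (-1 : ℝ) 1 \ {0}) := by
    ext q
    simp only [Set.mem_ofPred_eq, Set.mem_prod, Set.mem_sdiff, Set.mem_Icc, Set.mem_singleton_iff,
      abs_pos, abs_le]
    tauto
  rw [h1, Measure.volume_eq_prod, Measure.prod_prod]
  have h2 : volume (Set.Icc (-1 : ℝ) 1 \ {0}) = 2 := by
    rw [measure_sdiff_null (by simp)]
    rw [Real.volume_Icc]
    norm_num
  rw [h2]
  norm_num

theorem main (hH : HALL_S) (hR : RGOOD_S) (hF : FRONT_S) (hL : LATT_S) (hA : AREA_S) :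
    MAIN_S := by
  intro p n hp hn hpn hinj
  -- it suffices to prove it up to every `ε`
  have hn1 : (0 : ℝ) ≤ 1 - 1 / (n : ℝ) := by
    have h1 : (1 : ℝ) ≤ n := by exact_mod_cast (by omega : 1 ≤ n)
    have h2 : 1 / (n : ℝ) ≤ 1 := by
      rw [div_le_one (by linarith)]
      exact h1
    linarith
  have hn2 : 1 - 1 / (n : ℝ) ≤ 1 := by
    have h1 : (0 : ℝ) < n := by exact_mod_cast (by omega : 0 < n)
    have h2 : 0 < 1 / (n : ℝ) := by positivity
    linarith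
  apply le_of_forall_pos_le_add
  intro ε hε
  obtain ⟨K, hK⟩ := hA p n hp hn hpn (ε / 3) (by positivity)
  set T : Set (ℝ × ℝ) := {q : ℝ × ℝ | TT p n K q.1 q.2} with hT
  obtain ⟨hTb, hTm, hTf⟩ := hF p n K (by omega)
  obtain ⟨U0, hU0⟩ := hL T n (by omega) hTb hTm hTf (ε / 3) (by positivity)
  -- the area of `T`
  have harea : 4 * QQ p n - ε / 3 ≤ (volume T).toReal := by
    have hTeq : T = {q : ℝ × ℝ | 0 < |q.1| ∧ |q.1| ≤ 1 ∧ 0 < |q.2| ∧ |q.2| ≤ 1} ∪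
        {q : ℝ × ℝ | RR p n K q.1 q.2} := by
      ext q
      rfl
    have hmb : MeasurableSet {q : ℝ × ℝ | 0 < |q.1| ∧ |q.1| ≤ 1 ∧ 0 < |q.2| ∧ |q.2| ≤ 1} := by
      have h1 : Measurable (fun q : ℝ × ℝ => |q.1|) := by fun_prop
      have h2 : Measurable (fun q : ℝ × ℝ => |q.2|) := by fun_prop
      exact (measurableSet_lt measurable_const h1).inter
        ((measurableSet_le h1 measurable_const).inter
          ((measurableSet_lt measurable_const h2).inter (measurableSet_le h2 measurable_const)))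
    have hdisj : Disjoint {q : ℝ × ℝ | 0 < |q.1| ∧ |q.1| ≤ 1 ∧ 0 < |q.2| ∧ |q.2| ≤ 1}
        {q : ℝ × ℝ | RR p n K q.1 q.2} := by
      rw [Set.disjoint_left]
      rintro q ⟨-, -, -, h1⟩ ⟨-, -, h2, -⟩
      exact absurd h2 (not_lt.mpr h1)
    have hvol : volume T = 4 + volume {q : ℝ × ℝ | RR p n K q.1 q.2} := by
      rw [hTeq, measure_union' hdisj hmb, box_area]
    have hfin : volume {q : ℝ × ℝ | RR p n K q.1 q.2} ≠ ⊤ := by
      have h1 : volume {q : ℝ × ℝ | RR p n K q.1 q.2} ≤ volume T :=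
        measure_mono (fun q hq => Or.inr hq)
      exact ne_top_of_le_ne_top hTb.measure_lt_top.ne h1
    rw [hvol, ENNReal.toReal_add (by norm_num) hfin]
    have h4 : (4 : ENNReal).toReal = 4 := by norm_num
    rw [h4]
    linarith
  -- a large `U`
  obtain ⟨U1, hU1⟩ := exists_nat_gt (3 * (p : ℝ) / ε)
  set U : ℕ := max (max U0 U1) 1 with hU
  have hUU0 : U0 ≤ U := (le_max_left _ _).trans (le_max_left _ _)
  have hUU1 : U1 ≤ U := (le_max_right _ _).trans (le_max_left _ _)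
  have hU1' : 1 ≤ U := le_max_right _ _
  obtain ⟨S, hS1, hS2⟩ := hU0 U hUU0
  have hUpos : (0 : ℝ) < U := by exact_mod_cast (by omega : 0 < U)
  have hcard := hH p n U hp hn hU1' hinj S (by
    intro q hq
    obtain ⟨h1, h2⟩ := hS1 q hq
    rcases h1 with ⟨k1, k2, k3, k4⟩ | h1
    · simp only [abs_div, Nat.abs_cast] at k1 k2 k3 k4
      have e1 : q.1 ≠ 0 := by
        rintro h
        rw [h] at k1
        simp at k1
      have e3 : q.2 ≠ 0 := by
        rintro h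
        rw [h] at k3
        simp at k3
      rw [div_le_one hUpos] at k2 k4
      have e2 : |q.1| ≤ U := by exact_mod_cast k2
      have e4 : |q.2| ≤ U := by exact_mod_cast k4
      exact ⟨e1, e2, e3, h2, Or.inl e4⟩
    · obtain ⟨e1, e2, e3, e4, e5⟩ := hR p n K U q.1 q.2 hU1' h1
      exact ⟨e1, e2, e3, h2, Or.inr ⟨e4, e5⟩⟩)
  have hcardR : (S.card : ℝ) ≤ p * (U * (U + 1)) := by exact_mod_cast hcard
  have h1 : ((1 - 1 / (n : ℝ)) * (volume T).toReal - ε / 3) * (U : ℝ) ^ 2 ≤ p * (U * (U + 1)) :=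
    hS2.trans hcardR
  have h2 : (p : ℝ) * U ≤ ε / 3 * (U : ℝ) ^ 2 := by
    have h3 : 3 * (p : ℝ) / ε < U := hU1.trans_le (by exact_mod_cast hUU1)
    rw [div_lt_iff₀ hε] at h3
    nlinarith
  have h3 : ((1 - 1 / (n : ℝ)) * (volume T).toReal - ε / 3) * (U : ℝ) ^ 2 ≤
      (p + ε / 3) * (U : ℝ) ^ 2 := by
    calc _ ≤ (p : ℝ) * (U * (U + 1)) := h1
      _ = p * (U : ℝ) ^ 2 + p * U := by ring
      _ ≤ _ := by linarith
  have h4 : (1 - 1 / (n : ℝ)) * (volume T).toReal - ε / 3 ≤ p + ε / 3 :=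
    le_of_mul_le_mul_right h3 (by positivity)
  have h5 : (1 - 1 / (n : ℝ)) * (4 * QQ p n - ε / 3) ≤ (1 - 1 / (n : ℝ)) * (volume T).toReal :=
    mul_le_mul_of_nonneg_left harea hn1
  have h6 : (1 - 1 / (n : ℝ)) * (ε / 3) ≤ ε / 3 := by
    have : 0 ≤ ε / 3 := by positivity
    nlinarith
  nlinarith

end Pool.Agent.Lib.MP_b4205f_al.CH
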