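import Pool.Agent.Lib.MP_b4205f_al.CH.Table
import Pool.Agent.Lib.MP_b4205f_al.CH.Defs
import Pool.Agent.Lib.MP_b4205f_al.H76.Main

/-!
Project CHAIN: numerators at most 12, and the reduction of the final theorem to MAIN and NUM.
-/

namespace Pool.Agent.Lib.MP_b4205f_al.CH

open Matrix Pool.Agent.Lib.MP_b4205f_al.H22 Pool.Agent.Lib.MP_b4205f_al.H76

/-- the denominators below this bound are treated by explicit words -/
def thr : ℕ → ℕ
  | 1 => 4
  | 2 => 4
  | 3 => 6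
  | 4 => 5
  | 5 => 7
  | 6 => 10
  | 7 => 16
  | 8 => 25
  | 9 => 42
  | 10 => 70
  | 11 => 120
  | 12 => 211
  | _ => 0

theorem not_free_below_thr {p n : ℕ} (h1 : 1 ≤ p) (h12 : p ≤ 12) (hc : Nat.gcd p n = 1)
    (h2 : p < 2 * n) (hn : n < thr p) : ¬ Function.Injective (phi ((p : ℚ) / n)) := by
  have hn0 : ((n : ℕ) : ℤ) ≠ 0 := by omega
  have key : ∀ l : List ℤ, chk (p : ℤ) (n : ℤ) l = true →
      ¬ Function.Injective (phi ((p : ℚ) / n)) := by
    intro l hl
    have := not_free_of_chk hn0 hl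
    push_cast at this
    exact this
  interval_cases p
  · exact key _ (tb1_ok n hn hc h2)
  · exact key _ (tb2_ok n hn hc h2)
  · exact key _ (tb3_ok n hn hc h2)
  · exact key _ (tb4_ok n hn hc h2)
  · exact key _ (tb5_ok n hn hc h2)
  · exact key _ (tb6_ok n hn hc h2)
  · exact key _ (tb7_ok n hn hc h2)
  · exact key _ (tb8_ok n hn hc h2)
  · exact key _ (tb9_ok n hn hc h2)
  · exact key _ (tb10_ok n hn hc h2)
  · exact key _ (tb11_ok n hn hc h2)
  · exact key _ (tb12_ok n hn hc h2)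

/-- numerators at most 3 and large denominators -/
theorem not_free_three {p n : ℕ} (h1 : 1 ≤ p) (h3 : p ≤ 3) (hn : thr p ≤ n) :
    ¬ Function.Injective (phi ((p : ℚ) / n)) := by
  apply not_free_large (by omega)
  have he : Real.exp (1 / 16 : ℝ) ≤ 16 / 15 := by
    have h4 := Real.add_one_le_exp (-(1 / 16) : ℝ)
    have h5 : Real.exp (-(1 / 16) : ℝ) * Real.exp (1 / 16) = 1 := by
      rw [← Real.exp_add]; norm_num
    have h6 := Real.exp_pos (1 / 16 : ℝ)
    nlinarith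
  have h6 := Real.exp_pos (1 / 16 : ℝ)
  have hpow : ∀ k : ℕ, Real.exp ((k : ℝ) / 16) ≤ (16 / 15) ^ k := by
    intro k
    have : Real.exp ((k : ℝ) / 16) = Real.exp (1 / 16) ^ k := by
      rw [← Real.exp_nat_mul]
      congr 1
      ring
    rw [this]
    exact pow_le_pow_left₀ h6.le he k
  interval_cases p
  · have h7 := hpow 1
    have h8 : (4 : ℝ) ≤ n := by exact_mod_cast hn
    norm_num at h7 ⊢
    linarith
  · have h7 := hpow 4
    have h8 : (4 : ℝ) ≤ n := by exact_mod_cast hn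
    norm_num at h7 ⊢
    linarith
  · have h7 := hpow 9
    have h8 : (6 : ℝ) ≤ n := by exact_mod_cast hn
    norm_num at h7 ⊢
    linarith

/-- the threshold condition from an inequality of integers -/
lemma cond_of_nat {p n : ℕ} (h : (2 * p) ^ 2 * (p + 2) ^ p ≤ 4 ^ p * n ^ 4) :
    2 * (p : ℝ) * (((p : ℝ) + 2) / 4) ^ ((p : ℝ) / 2) ≤ (n : ℝ) ^ 2 := by
  have hx : (0 : ℝ) ≤ ((p : ℝ) + 2) / 4 := by positivity
  have h1 : ((((p : ℝ) + 2) / 4) ^ ((p : ℝ) / 2)) ^ 2 = (((p : ℝ) + 2) / 4) ^ p := by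
    rw [← Real.rpow_natCast, ← Real.rpow_mul hx]
    rw [show (p : ℝ) / 2 * ((2 : ℕ) : ℝ) = (p : ℝ) by push_cast; ring, Real.rpow_natCast]
  have h2 : (2 * (p : ℝ) * (((p : ℝ) + 2) / 4) ^ ((p : ℝ) / 2)) ^ 2 ≤ ((n : ℝ) ^ 2) ^ 2 := by
    rw [mul_pow, h1, div_pow, ← mul_div_assoc, div_le_iff₀ (by positivity)]
    have h3 : (((2 * p) ^ 2 * (p + 2) ^ p : ℕ) : ℝ) ≤ ((4 ^ p * n ^ 4 : ℕ) : ℝ) := by
      exact_mod_cast h
    push_cast at h3
    nlinarith
  exact le_of_sq_le_sq h2 (by positivity)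

/-- numerators between 4 and 12 and large denominators -/
theorem not_free_twelve (hM : MAIN_S) (hN : NUM_S) {p n : ℕ} (h1 : 4 ≤ p)
    (h : 2 * (p : ℝ) * (((p : ℝ) + 2) / 4) ^ ((p : ℝ) / 2) ≤ (n : ℝ) ^ 2) :
    ¬ Function.Injective (phi ((p : ℚ) / n)) := by
  intro hinj
  obtain ⟨h2, h3, h4⟩ := hN p n h1 h
  exact absurd (hM p n (by omega) h3 h2 hinj) (not_le.mpr h4)

theorem not_free_le_twelve (hM : MAIN_S) (hN : NUM_S) {p n : ℕ} (h1 : 1 ≤ p) (h12 : p ≤ 12)
    (hc : Nat.gcd p n = 1) (h2 : p < 2 * n) : ¬ Function.Injective (phi ((p : ℚ) / n)) := by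
  rcases lt_or_ge n (thr p) with hn | hn
  · exact not_free_below_thr h1 h12 hc h2 hn
  rcases le_or_gt p 3 with h3 | h3
  · exact not_free_three h1 h3 hn
  apply not_free_twelve hM hN h3
  apply cond_of_nat
  have h4 : (thr p) ^ 4 ≤ n ^ 4 := Nat.pow_le_pow_left hn 4
  have h5 : (2 * p) ^ 2 * (p + 2) ^ p ≤ 4 ^ p * (thr p) ^ 4 := by
    interval_cases p <;> decide
  exact h5.trans (Nat.mul_le_mul_left _ h4)

/-- the pair for `-al` is free as soon as the pair for `al` is -/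
lemma injective_neg {al : ℚ} (h : Function.Injective (phi al)) :
    Function.Injective (phi (-al)) := by
  have h1 : ∀ x, phi (-al) x =
      phi al (FreeGroup.lift ![(FreeGroup.of (0 : Fin 2))⁻¹, (FreeGroup.of (1 : Fin 2))⁻¹] x) := by
    intro x
    have h2 : phi (-al) = (phi al).comp
        (FreeGroup.lift ![(FreeGroup.of (0 : Fin 2))⁻¹, (FreeGroup.of (1 : Fin 2))⁻¹]) := by
      apply FreeGroup.ext_hom
      intro i
      fin_cases i
      · simp [phi, U_inv]
      · simp [phi, L_inv]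
    rw [h2]
    rfl
  have h3 : Function.Injective (FreeGroup.lift
      ![(FreeGroup.of (0 : Fin 2))⁻¹, (FreeGroup.of (1 : Fin 2))⁻¹] :
      FreeGroup (Fin 2) →* FreeGroup (Fin 2)) := by
    apply Function.Involutive.injective
    intro x
    have h4 : (FreeGroup.lift ![(FreeGroup.of (0 : Fin 2))⁻¹, (FreeGroup.of (1 : Fin 2))⁻¹]).comp
        (FreeGroup.lift ![(FreeGroup.of (0 : Fin 2))⁻¹, (FreeGroup.of (1 : Fin 2))⁻¹]) =
        MonoidHom.id (FreeGroup (Fin 2)) := by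
      apply FreeGroup.ext_hom
      intro i
      fin_cases i <;> simp
    exact congrArg (fun f : FreeGroup (Fin 2) →* FreeGroup (Fin 2) => f x) h4
  intro x y hxy
  rw [h1, h1] at hxy
  exact h3 (h hxy)

/-- The final theorem, given MAIN and NUM. -/
theorem final_of (hM : MAIN_S) (hN : NUM_S) (al : ℚ) (h0 : al ≠ 0) (h2 : |al| < 2)
    (h : |al.num| ≤ 12 ∨ 2 * ((|al.num| : ℤ) : ℝ) *
      ((((|al.num| : ℤ) : ℝ) + 2) / 4) ^ (((|al.num| : ℤ) : ℝ) / 2) ≤ (al.den : ℝ) ^ 2) :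
    ¬ Function.Injective (phi al) := by
  -- reduction to positive `al`
  have pos : ∀ p n : ℕ, 1 ≤ p → Nat.gcd p n = 1 → p < 2 * n →
      (p ≤ 12 ∨ 2 * (p : ℝ) * (((p : ℝ) + 2) / 4) ^ ((p : ℝ) / 2) ≤ (n : ℝ) ^ 2) →
      ¬ Function.Injective (phi ((p : ℚ) / n)) := by
    intro p n hp hc hpn hor
    rcases le_or_gt p 12 with h12 | h12
    · exact not_free_le_twelve hM hN hp h12 hc hpn
    · rcases hor with hor | hor
      · omega
      · exact not_free_twelve hM hN (by omega) hor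
  have hnum : al.num ≠ 0 := Rat.num_ne_zero.mpr h0
  have hp1 : 1 ≤ al.num.natAbs := Int.natAbs_pos.mpr hnum
  have habs : |al| = (al.num.natAbs : ℚ) / al.den := by
    conv_lhs => rw [← Rat.num_div_den al]
    rw [abs_div, Nat.abs_cast, ← Int.cast_abs, Int.abs_eq_natAbs, Int.cast_natCast]
  have hden : (0 : ℚ) < al.den := by exact_mod_cast al.pos
  have hlt : al.num.natAbs < 2 * al.den := by
    rw [habs, div_lt_iff₀ hden] at h2
    exact_mod_cast h2
  have hcast : ((|al.num| : ℤ) : ℝ) = ((al.num.natAbs : ℕ) : ℝ) := by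
    rw [Int.abs_eq_natAbs, Int.cast_natCast]
  have h3 := pos al.num.natAbs al.den hp1 al.reduced hlt (by
    rcases h with h | h
    · left
      rw [Int.abs_eq_natAbs] at h
      exact_mod_cast h
    · right
      rw [hcast] at h
      exact h)
  rw [← habs] at h3
  intro hinj
  apply h3
  rcases abs_choice al with h4 | h4
  · rwa [h4]
  · rw [h4]
    exact injective_neg hinj

end Pool.Agent.Lib.MP_b4205f_al.CH
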