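import Pool.Agent.Lib.MP_b4205f_al.CH.Key
import Pool.Agent.Lib.MP_b4205f_al.CH.Hall
import Pool.Agent.Lib.MP_b4205f_al.CH.Main
import Pool.Agent.Lib.MP_b4205f_al.CH.Small
import Pool.Agent.Lib.MP_b4205f_al.H23.Rec
import Pool.Agent.Lib.MP_b4205f_al.H54.Area
import Pool.Agent.Lib.MP_b4205f_al.H54.Rgood
import Pool.Agent.Lib.MP_b4205f_al.H78.Latt
import Pool.Agent.Lib.MP_b4205f_al.H78.Num
import Pool.Agent.Lib.MP_b4205f_al.H80.Front
import Pool.Agent.Lib.MP_b4205f_al.H80.Meas
import Pool.Agent.Lib.MP_b4205f_al.H81.Grid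
import Pool.Agent.Lib.MP_b4205f_al.H81.Ode
import Pool.Agent.Lib.MP_b4205f_al.H81.Pt
import Pool.Agent.Lib.MP_b4205f_al.H97.Vol

/-!
Project CHAIN: the assembled theorem.
-/

namespace Pool.Agent.Lib.MP_b4205f_al.CH

open Pool.Agent.Lib.MP_b4205f_al.H22 Pool.Agent.Lib.MP_b4205f_al.H76

theorem rec_all : REC_S := H23.rec (H81.pt H81.grid H81.ode) H80.meas

theorem area_all : AREA_S := H54.area rec_all (H97.vol H80.meas) H80.meas H81.ode

theorem main_all : MAIN_S :=
  main (hall key) H54.rgood (H80.front H80.meas) H78.latt area_all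

/-- Merzlyakov's question for numerators at most 12 and for large denominators. -/
theorem final (al : ℚ) (h0 : al ≠ 0) (h2 : |al| < 2)
    (h : |al.num| ≤ 12 ∨ 2 * ((|al.num| : ℤ) : ℝ) *
      ((((|al.num| : ℤ) : ℝ) + 2) / 4) ^ (((|al.num| : ℤ) : ℝ) / 2) ≤ (al.den : ℝ) ^ 2) :
    ¬ Function.Injective (phi al) :=
  final_of main_all H78.num al h0 h2 h

/-- every numerator, explicit threshold for the denominators -/
theorem threshold (p n : ℕ) (hp : 0 < p)
    (hn : 2 * (p : ℝ) * (((p : ℝ) + 2) / 4) ^ ((p : ℝ) / 2) ≤ (n : ℝ) ^ 2) :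
    ¬ Function.Injective (phi ((p : ℚ) / n)) := by
  rcases le_or_gt 4 p with h4 | h4
  · exact not_free_twelve main_all H78.num h4 hn
  -- small numerators
  have hn0 : 0 < n := by
    rcases Nat.eq_zero_or_pos n with h | h
    · exfalso
      rw [h] at hn
      have h1 : (0 : ℝ) < p := by exact_mod_cast hp
      have h2 : 0 < 2 * (p : ℝ) * (((p : ℝ) + 2) / 4) ^ ((p : ℝ) / 2) := by positivity
      norm_num at hn
      linarith
    · exact h
  have hpn : p < 2 * n := by
    by_contra hcon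
    push Not at hcon
    have h1 : n = 1 := by omega
    subst h1
    have h5 : p = 2 ∨ p = 3 := by omega
    rcases h5 with rfl | rfl
    · norm_num at hn
    · have h6 : (1 : ℝ) ≤ ((((3 : ℕ) : ℝ) + 2) / 4) ^ (((3 : ℕ) : ℝ) / 2) :=
        Real.one_le_rpow (by norm_num) (by positivity)
      push_cast at hn h6
      linarith
  have hnq : (0 : ℚ) < n := by exact_mod_cast hn0
  have hpq : (0 : ℚ) < p := by exact_mod_cast hp
  apply final
  · positivity
  · rw [abs_of_pos (by positivity), div_lt_iff₀ hnq]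
    exact_mod_cast hpn
  · left
    have h7 : ((p : ℚ) / n).num ∣ (p : ℤ) := by
      have := Rat.num_dvd (p : ℤ) (b := (n : ℤ)) (by omega)
      rw [Rat.divInt_eq_div] at this
      push_cast at this
      exact this
    have h8 := Int.natAbs_dvd_natAbs.mpr h7
    have h9 : ((p : ℚ) / n).num.natAbs ≤ p := Nat.le_of_dvd hp (by simpa using h8)
    rw [Int.abs_eq_natAbs]
    omega

end Pool.Agent.Lib.MP_b4205f_al.CH
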