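import Pool.Agent.Lib.MP_b4205f_al.CH.Defs

/-!
Project CHAIN, module KEY: the counting criterion for pairs of integers.
-/

namespace Pool.Agent.Lib.MP_b4205f_al.CH

open Matrix Pool.Agent.Lib.MP_b4205f_al.H22 Pool.Agent.Lib.MP_b4205f_al.H76

/-- the level shift -/
def shf (n : ℤ) (y : ℤ) : ℕ := if n ∣ y then 0 else 1

/-- the scaled vector -/
noncomputable def vc (n : ℤ) (q : ℤ × ℤ) (k : ℕ) : ℚ × ℚ :=
  ((q.1 : ℚ) / (n : ℚ) ^ k, (q.2 : ℚ) / (n : ℚ) ^ k)

/-- the residue before reduction -/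
def rsd (n : ℤ) (q : ℤ × ℤ) : ℤ := if n ∣ q.2 then q.1 else n * q.1

/-- the hub coordinate -/
def hub (n : ℤ) (q : ℤ × ℤ) : ℤ := if n ∣ q.2 then q.2 / n else q.2

lemma labA_eq (p n : ℤ) (q : ℤ × ℤ) : labA p n q = (hub n q, rsd n q % (p * |hub n q|)) := by
  unfold labA hub rsd
  split_ifs <;> rfl

lemma vc_eq {n : ℤ} (hn : n ≠ 0) (q : ℤ × ℤ) (k : ℕ) :
    vc n q k = ((rsd n q : ℚ) / (n : ℚ) ^ (k + shf n q.2),
      (n * hub n q : ℚ) / (n : ℚ) ^ (k + shf n q.2)) := by
  have hn' : (n : ℚ) ≠ 0 := by exact_mod_cast hn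
  unfold vc rsd hub shf
  split_ifs with h
  · obtain ⟨c, hc⟩ := h
    have : q.2 / n = c := by rw [hc]; exact Int.mul_ediv_cancel_left c hn
    rw [this, hc]
    simp only [add_zero]
    push_cast
    rfl
  · rw [pow_succ]
    push_cast
    congr 1
    · field_simp
    · field_simp

lemma step_of_lab {p n : ℤ} (hn : n ≠ 0) {q q' : ℤ × ℤ} {k k' : ℕ}
    (h1 : labA p n q = labA p n q') (h2 : k + shf n q.2 = k' + shf n q'.2) :
    ∃ m : ℤ, (vc n q' k').1 = (vc n q k).1 + m * ((p : ℚ) / n) * (vc n q k).2 ∧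
      (vc n q' k').2 = (vc n q k).2 := by
  have hn' : (n : ℚ) ≠ 0 := by exact_mod_cast hn
  rw [labA_eq, labA_eq, Prod.mk.injEq] at h1
  obtain ⟨h3, h4⟩ := h1
  rw [← h3] at h4
  have h5 : p * |hub n q| ∣ rsd n q' - rsd n q := Int.ModEq.dvd h4
  have h6 : p * hub n q ∣ rsd n q' - rsd n q := by
    rcases abs_choice (hub n q) with h | h
    · rwa [h] at h5
    · rw [h] at h5
      rw [show p * hub n q = -(p * -hub n q) by ring]
      exact (neg_dvd).mpr h5
  obtain ⟨m, hm⟩ := h6
  have hm' : (rsd n q' : ℚ) = rsd n q + p * hub n q * m := by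
    have : rsd n q' = rsd n q + p * hub n q * m := by linarith
    exact_mod_cast this
  refine ⟨m, ?_, ?_⟩
  · rw [vc_eq hn, vc_eq hn, ← h2, hm']
    simp only
    field_simp
  · rw [vc_eq hn, vc_eq hn, ← h2, ← h3]

theorem key : KEY_S := by
  intro p n hp hn hinj P hP
  classical
  have hn0 : (n : ℤ) ≠ 0 := by omega
  have hnq : ((n : ℤ) : ℚ) ≠ 0 := by exact_mod_cast hn0
  have main : ∀ K : ℕ, P.card * K ≤
      (P.image (labA p n)).card * (K + 1) + (P.image (labB p n)).card * (K + 1) := by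
    intro K
    have := card_le_vectors hinj (ι := P × Fin K) (α := (P.image (labA p n)) × Fin (K + 1))
      (β := (P.image (labB p n)) × Fin (K + 1))
      (fun a => vc n a.1.1 a.2)
      (by
        rintro ⟨⟨q, hq⟩, k⟩ ⟨⟨q', hq'⟩, k'⟩ h
        simp only [vc, Prod.mk.injEq] at h
        obtain ⟨h1, h2⟩ := h
        -- levels agree
        have lev : ∀ (a b : ℤ) (i j : ℕ), i < j →
            (a : ℚ) / ((n : ℤ) : ℚ) ^ i = (b : ℚ) / ((n : ℤ) : ℚ) ^ j → (n : ℤ) ∣ b := by
          intro a b i j hij hab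
          obtain ⟨d, rfl⟩ := Nat.exists_eq_add_of_lt hij
          rw [div_eq_div_iff (pow_ne_zero _ hnq) (pow_ne_zero _ hnq)] at hab
          have e : (b : ℚ) = a * ((n : ℤ) : ℚ) ^ (d + 1) := by
            have hpow : ((n : ℤ) : ℚ) ^ (i + d + 1) =
                ((n : ℤ) : ℚ) ^ (d + 1) * ((n : ℤ) : ℚ) ^ i := by
              rw [← pow_add]; congr 1; omega
            rw [hpow, ← mul_assoc] at hab
            exact (mul_right_cancel₀ (pow_ne_zero _ hnq) hab).symm
          have e' : b = a * (n : ℤ) ^ (d + 1) := by exact_mod_cast e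
          rw [e', pow_succ]
          exact Dvd.intro_left (a * (n : ℤ) ^ d) (by ring)
        have hk : (k : ℕ) = k' := by
          rcases lt_trichotomy (k : ℕ) (k' : ℕ) with h | h | h
          · exact absurd ⟨lev _ _ _ _ h h1, lev _ _ _ _ h h2⟩ (hP q' hq').2.2
          · exact h
          · exact absurd ⟨lev _ _ _ _ h h1.symm, lev _ _ _ _ h h2.symm⟩ (hP q hq).2.2
        rw [hk] at h1 h2
        have e2 : (q.2 : ℚ) = q'.2 := by
          field_simp at h2
          exact h2
        have e1 : (q.1 : ℚ) = q'.1 := by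
          field_simp at h1
          exact h1
        have e2' : q.2 = q'.2 := by exact_mod_cast e2
        have e1' : q.1 = q'.1 := by exact_mod_cast e1
        have hq2 : q = q' := Prod.ext e1' e2'
        subst hq2
        rw [Fin.ext hk])
      (by
        rintro ⟨⟨q, hq⟩, k⟩
        left
        simp only [vc]
        have hv : (q.1 : ℚ) ≠ 0 := by exact_mod_cast (hP q hq).1
        exact div_ne_zero hv (pow_ne_zero _ hnq))
      (fun a => (⟨labA p n a.1.1, Finset.mem_image_of_mem _ a.1.2⟩,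
        ⟨(a.2 : ℕ) + shf n a.1.1.2, by
          have := a.2.2
          unfold shf
          split_ifs <;> omega⟩))
      (fun a => (⟨labB p n a.1.1, Finset.mem_image_of_mem _ a.1.2⟩,
        ⟨(a.2 : ℕ) + shf n a.1.1.1, by
          have := a.2.2
          unfold shf
          split_ifs <;> omega⟩))
      (by
        rintro ⟨⟨q, hq⟩, k⟩ ⟨⟨q', hq'⟩, k'⟩ h
        simp only [Prod.mk.injEq, Subtype.mk.injEq, Fin.mk.injEq] at h
        obtain ⟨h1, h2⟩ := h
        obtain ⟨m, hm1, hm2⟩ := step_of_lab hn0 h1 h2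
        exact ⟨m, by simpa using hm1, by simpa using hm2⟩)
      (by
        rintro ⟨⟨q, hq⟩, k⟩ ⟨⟨q', hq'⟩, k'⟩ h
        simp only [Prod.mk.injEq, Subtype.mk.injEq, Fin.mk.injEq, labB] at h
        obtain ⟨h1, h2⟩ := h
        obtain ⟨m, hm1, hm2⟩ := step_of_lab (q := (q.2, q.1)) (q' := (q'.2, q'.1)) hn0 h1 h2
        refine ⟨m, ?_, ?_⟩
        · simpa [vc] using hm2
        · simpa [vc] using hm1)
    simpa [Fintype.card_prod, Fintype.card_fin, Fintype.card_coe] using this
  by_contra hcon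
  push Not at hcon
  have h := main ((P.image (labA p n)).card + (P.image (labB p n)).card + 1)
  generalize (P.image (labA p n)).card = a at *
  generalize (P.image (labB p n)).card = b at *
  generalize P.card = c at *
  nlinarith

end Pool.Agent.Lib.MP_b4205f_al.CH
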