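import Pool.Agent.Lib.MP_b4205f_al.CH.Words

/-!
Project CHAIN: the table of the relations for the numerators at most 12.
-/

namespace Pool.Agent.Lib.MP_b4205f_al.CH

open Pool.Agent.Lib.MP_b4205f_al.H22 Pool.Agent.Lib.MP_b4205f_al.H76

/-- words for the numerator 1 -/
def tb1 : List (ℕ × List ℤ) := [
  (1, [1, -2, 1]),
  (2, [1, -8, 1]),
  (3, [1, -18, 1])]

theorem tb1_ok : ∀ n < 4, Nat.gcd 1 n = 1 → 1 < 2 * n →
    chk 1 (n : ℤ) ((tb1.lookup n).getD []) = true := by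
  decide +kernel

/-- words for the numerator 2 -/
def tb2 : List (ℕ × List ℤ) := [
  (3, [-18, -1, 2])]

theorem tb2_ok : ∀ n < 4, Nat.gcd 2 n = 1 → 2 < 2 * n →
    chk 2 (n : ℤ) ((tb2.lookup n).getD []) = true := by
  decide +kernel

/-- words for the numerator 3 -/
def tb3 : List (ℕ × List ℤ) := [
  (2, [-2, 1, -1, 1, 12]),
  (4, [-16, 1, -2]),
  (5, [1, -3, 25, -3, 1])]

theorem tb3_ok : ∀ n < 6, Nat.gcd 3 n = 1 → 3 < 2 * n →
    chk 3 (n : ℤ) ((tb3.lookup n).getD []) = true := by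
  decide +kernel

/-- words for the numerator 4 -/
def tb4 : List (ℕ × List ℤ) := [
  (3, [-18, 2, 1, -1, 1])]

theorem tb4_ok : ∀ n < 5, Nat.gcd 4 n = 1 → 4 < 2 * n →
    chk 4 (n : ℤ) ((tb4.lookup n).getD []) = true := by
  decide +kernel

/-- words for the numerator 5 -/
def tb5 : List (ℕ × List ℤ) := [
  (3, [6, 3, 2, 1, -1, 1, -1, 1, 1, -2, 18]),
  (4, [8, -2, 1, -1, 16]),
  (6, [-4, -3, 3, -2, 1])]

theorem tb5_ok : ∀ n < 7, Nat.gcd 5 n = 1 → 5 < 2 * n →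
    chk 5 (n : ℤ) ((tb5.lookup n).getD []) = true := by
  decide +kernel

/-- words for the numerator 6 -/
def tb6 : List (ℕ × List ℤ) := [
  (5, [5, -5, -7, 1, -1, 3, 75]),
  (7, [49, -1, 21, 1, -1, -5, 147])]

theorem tb6_ok : ∀ n < 10, Nat.gcd 6 n = 1 → 6 < 2 * n →
    chk 6 (n : ℤ) ((tb6.lookup n).getD []) = true := by
  decide +kernel

/-- words for the numerator 7 -/
def tb7 : List (ℕ × List ℤ) := [
  (4, [16, -1, 3, 2, 6, -1, 2, 1, -1, 6, -1, 1, -1, 1, -1, 6, -1, 1, 2, -1, 6, 2, 3, -1, 16]),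
  (5, [25, 1, -1, 1, 25]),
  (6, [-12, 3, 2, -4, 1, -1, 9]),
  (8, [16, -4, 1, -2, 32]),
  (9, [54, 3, -3, 15, 3, -1, 3, 3, 9, 2, 81]),
  (10, [-50, -2, 1]),
  (11, [-22, -11, -1, 2, 121]),
  (12, [-8, 2, -1, -4, 9]),
  (13, [26, -26, 1, -4, 169]),
  (15, [-25, 1, -15, 1, -9])]

theorem tb7_ok : ∀ n < 16, Nat.gcd 7 n = 1 → 7 < 2 * n →
    chk 7 (n : ℤ) ((tb7.lookup n).getD []) = true := by
  decide +kernel

/-- words for the numerator 8 -/
def tb8 : List (ℕ × List ℤ) := [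
  (5, [-5, 20, -1, -3, 5, 1, -1, 1, -1, -58, -2, 5, 5]),
  (7, [-196, 9, 2, -13, 6, -3, -3, 1, -1]),
  (9, [27, -3, 12, 2, -1, 3, 9, -1, 81]),
  (11, [2, -1, 33, 1, 11, -1, -16, -14, -11, 4, -121, 2, -1, 44, -44, 4, -11, -14, -16, -1, 11,
    1, 33, -1, 2]),
  (13, [-13, -13, 34, -8, 1, -4, 65, 1, 169]),
  (15, [-9, 1, -5, -5, 15, 3, -1]),
  (17, [-34, 34, 1, -4, 289]),
  (19, [152, 19, -1, 8, 361]),
  (21, [-63, 7, -1]),
  (23, [1, -8, -31, -69, 69, 6, -1, -23, -23, -138, -4, 2, 207, -23, -1, 6, 69, -69, -31, -8, 1])]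

theorem tb8_ok : ∀ n < 25, Nat.gcd 8 n = 1 → 8 < 2 * n →
    chk 8 (n : ℤ) ((tb8.lookup n).getD []) = true := by
  decide +kernel

/-- words for the numerator 9, part 1 -/
def tb9_1 : List (ℕ × List ℤ) := [
  (5, [-5, -15, -5, 1, -1, 1, -1, 1, -1, -3, 175]),
  (7, [49, -2, -21, -1, 1, -1, -1, -2, -7, 2, 2, -45, 2, 1, 14, -1, -4, 23, -1, 31, -1, 3, 8,
    11, 15, 7, 1, -2, -37, 3, -1, -14, -42, -8, 1, -1, -35, -2, 1, 7, 15, 11, 8, 3, -1, 31,
    -1, 23, -4, -1, 14, 1, 2, -45, 2, 2, -7, -2, -1, -1, 1, -1, -21, -2, 49]),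
  (8, [16, -4, 1, -1, 64]),
  (10, [-4, 5, 5, 1, -1]),
  (11, [121, -3, 1, -3, 121]),
  (13, [-13, -52, -1, 2, 338]),
  (14, [98, 3, -1, 12, 49, 12, -1, 3, 98]),
  (16, [16, -16, 1, -4, 64]),
  (17, [34, -34, 1, -4, 289]),
  (19, [-38, 38, 1, -4, 361]),
  (20, [-80, 5, -1]),
  (22, [-242, 6, -1])]

/-- words for the numerator 9, part 2 -/
def tb9_2 : List (ℕ × List ℤ) := [
  (23, [-46, 23, 3, -2, 529]),
  (25, [250, 10, -20, -5, 55, 5, -3, 5, 55, -5, -20, 10, 250]),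
  (26, [-52, 1, -13, -39, 34, 2, -52, -4, 2]),
  (28, [16, -1, 49, -1, 16]),
  (29, [-29, -145, -2, 5, 841]),
  (31, [961, 261, 131, -8, 3, -8, 131, 261, 961]),
  (32, [32, -32, 2, -8, 128]),
  (34, [-68, 1, -17, -17, 4]),
  (35, [1, -15, -245, -15, 1]),
  (37, [-2738, 8, 37, 439, -158, 3, -6, 107, 407, 5, -37, -8, 2738]),
  (38, [-361, -98, 33, -5, 4]),
  (40, [-160, 10, -2])]

/-- words for the numerator 9, part 3 -/
def tb9_3 : List (ℕ × List ℤ) := [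
  (41, [41, 41, -1, 41, 41])]

/-- words for the numerator 9 -/
def tb9 : List (ℕ × List ℤ) :=
  tb9_1 ++ tb9_2 ++ tb9_3

theorem tb9_ok : ∀ n < 42, Nat.gcd 9 n = 1 → 9 < 2 * n →
    chk 9 (n : ℤ) ((tb9.lookup n).getD []) = true := by
  decide +kernel

/-- words for the numerator 10, part 1 -/
def tb10_1 : List (ℕ × List ℤ) := [
  (7, [-1, 49, -1, -12, 1, -1, 1]),
  (9, [-81, 10, -3, -6, 1, -1, 12, -3, 1, -3, 270]),
  (11, [-11, 11, 94, 5, -1, 2, -3, 98, 121]),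
  (13, [-26, -65, 11, -2, 1, -20, 1014]),
  (17, [289, 26, -2, 68, -3, 1, -136, 17, -63, -4, 1, -10, -25, -22, -17, -2, 1156]),
  (19, [38, -38, 1, -4, 361]),
  (21, [147, -12, 1, -7, 252]),
  (23, [69, -23, 2, -3, 529]),
  (27, [-27, 27, -15, 9, -1, 51, 243]),
  (29, [-2, 4, 41, 348, 29, -29, 1, -12, 87, -87, -164, -1, 8]),
  (31, [4805, -8, 31, 12, -31, 1, 248, -2, 5, -91, -31, -6, -93, 93, 2, -31, 6, -93, 5, -2, 248,
    1, -31, 12, 31, -8, 4805]),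
  (33, [-99, 11, -1])]

/-- words for the numerator 10, part 2 -/
def tb10_2 : List (ℕ × List ℤ) := [
  (37, [-370, 37, 1, -10, 1369]),
  (39, [13, -13, 18, -1, 169]),
  (41, [-1681, -353, -80, -33, -41, -8, 2]),
  (43, [-43, -129, -6, 3, 1849]),
  (47, [188, -94, 3, -8, 2209]),
  (49, [1029, 56, -1, 42, 1372]),
  (51, [-153, -1, 34, -34, -78, 9, -3]),
  (53, [477, 53, -331, 3, -265, 7, -4, -365, -159, -159, 5, -371, -4, 7, -265, 3, -331, 53, 477]),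
  (57, [-684, 19, 1, -12, 1083]),
  (59, [-13924, 9, -118, 331, 3, 59, -59, 18, -2]),
  (61, [-14884, 9, 122, -391, 3, 61, 61, 18, -2]),
  (63, [-81, 4, -12, 63, -7])]

/-- words for the numerator 10, part 3 -/
def tb10_3 : List (ℕ × List ℤ) := [
  (67, [67, 134, -1, 67, 134]),
  (69, [-529, -111, 30, 46, -1])]

/-- words for the numerator 10 -/
def tb10 : List (ℕ × List ℤ) :=
  tb10_1 ++ tb10_2 ++ tb10_3

theorem tb10_ok : ∀ n < 70, Nat.gcd 10 n = 1 → 10 < 2 * n →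
    chk 10 (n : ℤ) ((tb10.lookup n).getD []) = true := by
  decide +kernel

/-- words for the numerator 11, part 1 -/
def tb11_1 : List (ℕ × List ℤ) := [
  (6, [-9, 1, -1, -14, -1, 2, 6, 1, -1, 1, -1, 1, -1, 1, 1, 1, -1, -1, -2, -13, 1, -1, 9]),
  (7, [637, -10, -6, -7, 1, -1, 1, -1, -1, -18, 29, 4, -1, 2, 48, 14, -1, -7, -70, 1, 1, -1, 1,
    -1, 7, -1, -42, 1, -35, 1, -49, 1, -35, 1, -42, -1, 7, -1, 1, -1, 1, 1, -70, -7, -1, 14,
    48, 2, -1, 4, 29, -18, -1, -1, 1, -1, 1, -7, -6, -10, 637]),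
  (8, [64, -1, 1, -1, -4, 16, -1, 16, -4, -1, 1, -1, 64]),
  (9, [81, 2, -1, 1, 162]),
  (10, [-25, -1, 1, -4, -5, -5, -1, 4, 6, 4, -1, 1, 25]),
  (12, [48, -3, 10, 1, -2, 1, 9, 1, -2, 1, 10, -3, 48]),
  (13, [78, -78, -2, -1, 1, -8, 1859]),
  (14, [196, 3, 7, 1, 15, 8, -1, 2, 64, 1, 7, 3, 196]),
  (15, [45, -5, 1, -3, 75]),
  (16, [-16, 16, 2, -1, 256]),
  (17, [68, 34, 5, -3, 1, -43, 289]),
  (18, [-36, 9, -3, 3, -1, -9, 3, -12, 7, -12, 3, -3, 27])]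

/-- words for the numerator 11, part 2 -/
def tb11_2 : List (ℕ × List ℤ) := [
  (19, [1, -3, 361, -3, 1]),
  (20, [-100, -1, 4, -4, -25]),
  (21, [-49, -6, -12, -7, 5, -2, 7, -1, 49]),
  (23, [-92, 23, 2, -2, 1058]),
  (24, [-96, 6, 1, -2, -8, 8, -18]),
  (25, [-5, 1, 125, -5, 1]),
  (26, [-13, 13, -38, -2, 3, -14, 169]),
  (27, [81, 18, -1, 9, 162]),
  (28, [-8, 2, 7, -7, 1]),
  (29, [-58, 87, -101, -37, 2, -4, 42, 139, 841]),
  (30, [-90, 10, -12, 5, -1, -10, -18]),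
  (31, [31, -310, 4, -2, 4805])]

/-- words for the numerator 11, part 3 -/
def tb11_3 : List (ℕ × List ℤ) := [
  (32, [1, -8, -18, -32, 32, -4, -16, -8, 1]),
  (34, [-578, 1, -10, 34, -17]),
  (35, [-1, 10, 98, 1, -8, 7, -90, -10, 1]),
  (36, [-108, 3, -12, 12, -1]),
  (37, [-37, -407, -1, 11, 1369]),
  (38, [-361, 6, -2]),
  (39, [-117, 1, -13, -13, 9]),
  (40, [-100, -4, 4, -16, -25]),
  (41, [-41, -41, -41, 7, -2, -164, 205]),
  (42, [-28, 7, -18, 7, 48, 7, -2]),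
  (43, [86, -344, 1, -16, 1849]),
  (45, [-135, -3, 15, 15, -1])]

/-- words for the numerator 11, part 4 -/
def tb11_4 : List (ℕ × List ℤ) := [
  (46, [-184, 46, 4, -4, 2116]),
  (47, [329, -47, 3, -7, 2209]),
  (48, [-192, 12, 2, -4, -16, 16, -36]),
  (49, [147, 49, -7, -14, 1, 119, 343]),
  (50, [-125, -5, 4]),
  (51, [9, -34, -34, 12, -34, 15, -3, 15, -34, 12, -34, -34, 9]),
  (52, [-624, -13, 4, -39, 13, -13, 2]),
  (53, [53, 371, -10, -106, 4, -6, -176, 53, 371]),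
  (54, [-108, 27, -9, 9, -4]),
  (56, [-16, 4, 14, -14, 2]),
  (57, [1, -27, 361, -27, 1]),
  (58, [2, -14, 841, -7, 4])]

/-- words for the numerator 11, part 5 -/
def tb11_5 : List (ℕ × List ℤ) := [
  (59, [295, -236, 3, -10, 6962]),
  (60, [180, -20, 3, -20, 180]),
  (61, [61, 61, -1, 61, 61]),
  (62, [1, -31, -62, -62, 1, -62, -62, -31, 1]),
  (63, [-441, -6, 4, 27, -21, 3, -147]),
  (64, [2, -16, -36, -64, 64, -8, -32, -16, 2]),
  (65, [1, -35, 845, -35, 1]),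
  (67, [-8978, 18, 67, -1670, -399, 3, 201, -19, 2, -1273, 3, 201, -6, 835, -134, -9, 17956]),
  (68, [-136, 34, 17, 17, -2]),
  (69, [828, -23, 5, -12, 1587]),
  (70, [-140, -7, -10, 35, -45, -28, 7, -7, -175]),
  (71, [-1, 42, -123, 854, 781, 284, -61, -284, 369, -14, 3])]

/-- words for the numerator 11, part 6 -/
def tb11_6 : List (ℕ × List ℤ) := [
  (72, [-216, 6, -24, 24, -2]),
  (73, [1, -44, -1066, 219, 73, 219, -1066, -44, 1]),
  (74, [-2, 22, 74, -22, -37, 92, -171, -370, 6, -148, 962, 362, 171, -92, 37, 22, -74, -22, 2]),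
  (75, [225, -25, 5, -15, 375]),
  (76, [-361, 24, -2]),
  (78, [-117, 13, -4]),
  (79, [12482, -490, 50, 158, -169, -1, 79, -1, -169, 158, 50, -490, 12482]),
  (80, [32, -8, 25, -4, 64]),
  (81, [-486, -27, 2]),
  (82, [-82, -41, 2, -82, -41]),
  (83, [-332, -498, -7, 8, 20667]),
  (84, [-112, 7, -9])]

/-- words for the numerator 11, part 7 -/
def tb11_7 : List (ℕ × List ℤ) := [
  (85, [-425, 2, -34, 34, -25]),
  (86, [-3698, 32, -43, -1, 24, 107, -1849]),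
  (87, [-3, 21, 841, -7, 9]),
  (89, [89, 2225, -233, 1, -89, -32, 15842]),
  (90, [-270, 30, -36, 15, -3, -30, -54]),
  (91, [637, 39, -14, -26, -6, -39, -4, 13, -161, 39, 637]),
  (92, [-1, 69, 72, 46, -92, 23, -224, -23, 3]),
  (93, [-93, -31, 3, -93, -31]),
  (94, [-188, 329, 5, -14, 4418]),
  (95, [-5, 19, -19, 95, -95, 38, -2]),
  (96, [-384, 24, 4, -8, -32, 32, -72]),
  (97, [97, 388, -1, 97, 388])]

/-- words for the numerator 11, part 8 -/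
def tb11_8 : List (ℕ × List ℤ) := [
  (98, [4, -21, 70, -56, -343, -28, 42, 49, -7, 14, 140, -28, -343, -56, 70, -21, 4]),
  (100, [-125, -20, 4]),
  (101, [101, 505, -1, 101, 505]),
  (102, [6, -17, 34, -51, 34, -17, -136, -51, 3, -51, -136, -17, 34, -51, 34, -17, 6]),
  (103, [-1, 88, -272, -3419, -206, 103, -309, 1710, 544, -44, 2]),
  (104, [-416, 26, 52, -91, 1]),
  (105, [63, 35, -5, 35, 63]),
  (106, [212, 371, -2, 53, 1484]),
  (107, [2461, -107, 5, -23, 11449]),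
  (108, [-81, 36, -36, 27, -4]),
  (109, [-981, -109, -10, 9, 11881]),
  (111, [-37, 3, -444, 37, -3])]

/-- words for the numerator 11, part 9 -/
def tb11_9 : List (ℕ × List ℤ) := [
  (112, [64, 28, -7, 28, 64]),
  (113, [-113, 1, -1582, -113, 1]),
  (114, [-9, 19, -152, -19, 38, -57, 2]),
  (115, [-5, 23, -115, 115, -1]),
  (116, [-4, 29, -116, 116, -1]),
  (117, [-27, 39, -91, 39, -3]),
  (118, [-2, 59, -118, 118, -1]),
  (119, [7, -17, 833, -17, 7])]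

/-- words for the numerator 11 -/
def tb11 : List (ℕ × List ℤ) :=
  tb11_1 ++ tb11_2 ++ tb11_3 ++ tb11_4 ++ tb11_5 ++ tb11_6 ++ tb11_7 ++ tb11_8 ++ tb11_9

theorem tb11_ok : ∀ n < 120, Nat.gcd 11 n = 1 → 11 < 2 * n →
    chk 11 (n : ℤ) ((tb11.lookup n).getD []) = true := by
  decide +kernel

/-- words for the numerator 12, part 1 -/
def tb12_1 : List (ℕ × List ℤ) := [
  (7, [392, -2, -4, -8, 1, 7, 1, -1, 1, -1, 1, 4, -49, -9, 98, 3, 1, -1, 1, -1, 1, 15, -6, -5,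
    -1, 1, 6, -1, -10, 2, 16415]),
  (11, [-242, 50, 1, -1, 4, 1, 2541]),
  (13, [-13, 13, -123, 16, 1, -1, -13, 13, 1, -1, -22, -27, 169]),
  (17, [-289, -2, 1]),
  (19, [-57, -76, 4, -314, 26, 2, 19, -23, 10, 1, -2]),
  (23, [46, -46, 1, -4, 529]),
  (25, [-100, 25, 2, -2, 1250]),
  (29, [29, 29, -6, 1, 841]),
  (31, [-434, 31, -15, -113, -113, -377, -3, 2, 31, 12, 339, 31, 1, -317, 1922]),
  (35, [-5, 5, -21, -14, 1, -21, 25]),
  (37, [-111, 111, 20, -37, -56, -3, 3]),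
  (41, [41, -82, 6, -2, 1681])]

/-- words for the numerator 12, part 2 -/
def tb12_2 : List (ℕ × List ℤ) := [
  (43, [-1849, -321, 74, 1, -11, 217, 18490]),
  (47, [-4418, 8, -47, -15, 1]),
  (49, [-4802, 8, 49, -17, 1]),
  (53, [-19663, 1, 53, 53, -396, 2, -10]),
  (55, [-121, 25, -22, 22, -1]),
  (59, [3, -8, -413, -5, -199, 282, 944, -1180, -6, 4, 1593, 590, 71, 604, -557, -6, 4]),
  (61, [-3721, -646, -893, -211, 152, 943, -51, 1215, -13, 2, -2867, 5, 51, -943, -152, 211, 893,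
    646, 3721]),
  (65, [-169, -1, 25]),
  (67, [-335, -268, -3, 10, 8978]),
  (71, [-5041, -35, 1]),
  (73, [-5329, -37, 1]),
  (77, [-539, 1, -44, -77, 7])]

/-- words for the numerator 12, part 3 -/
def tb12_3 : List (ℕ × List ℤ) := [
  (79, [-1343, -79, -2, 17, 6241]),
  (83, [-2, 24, -599, -1101, 71, 2324, 1577, 9, 581, 275, 2396, -6, 8]),
  (85, [-289, -50, 1]),
  (89, [-7921, -55, 1]),
  (91, [-169, 140, -70, 2, -49]),
  (95, [-475, 1, -76, 19, -25]),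
  (97, [-9409, -33, 194, 65, -1]),
  (101, [-101, 4747, 3, -909, -8, 9, -303, -47, 10201]),
  (103, [-515, -103, -14, 5, 10609]),
  (107, [-22898, -13, -321, 53, 321, -40, 2]),
  (109, [-23762, -14, 327, 55, -327, -41, 2]),
  (113, [1921, 339, -2, 51, 12769])]

/-- words for the numerator 12, part 4 -/
def tb12_4 : List (ℕ × List ℤ) := [
  (115, [-1150, 46, -2]),
  (119, [-289, -98, 1]),
  (121, [-1331, 1, -110, -1331, 1]),
  (125, [-500, 125, 10, -10, 6250]),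
  (127, [-16129, -112, 1]),
  (131, [-1310, -131, -11, 10, 17161]),
  (133, [19, -19, 196, -1, 361]),
  (137, [-137, -5343, -10, 13, 56307]),
  (139, [-139, 1, -3892, 139, -1]),
  (143, [-1573, 13, -11]),
  (145, [-725, -29, 5]),
  (149, [-149, 1, 4470, 149, -1])]

/-- words for the numerator 12, part 5 -/
def tb12_5 : List (ℕ × List ℤ) := [
  (151, [-6493, 151, -1, -3246, 6493, -151, 1]),
  (155, [-775, 434, 2, -70, 4805]),
  (157, [-471, 628, 14, -12, 24649]),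
  (161, [-529, 196, -46, 184, -1]),
  (163, [-1956, 815, 9, -20, 79707]),
  (167, [-55778, 98, -167, 13752, 1964, -11, -1169, 97, -2]),
  (169, [-169, 169, -1599, 208, 13, -13, -169, 169, 13, -13, -286, -351, 2197]),
  (173, [-173, -1038, -1, 173, 1038]),
  (175, [-245, 5, -50, -175, 7]),
  (179, [-179, 8234, -866, -446, 179, -1, -895, -179, 179, 110, -2]),
  (181, [-181, 7964, 936, -454, -181, 1, 905, -181, -181, 115, -2]),
  (185, [-37, 111, -9, 37, -148, 37, 50])]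

/-- words for the numerator 12, part 6 -/
def tb12_6 : List (ℕ × List ℤ) := [
  (187, [-289, -242, 1]),
  (191, [-36481, -126, -382, 254, -1]),
  (193, [-37249, -130, 386, 258, -1]),
  (197, [-5122, 197, 9, -26, 38809]),
  (199, [-39601, -275, 1]),
  (203, [-1421, -29, 4, 49, 841]),
  (205, [410, -205, 5, -82, 1025]),
  (209, [-3971, 1, -330, 209, -19])]

/-- words for the numerator 12 -/
def tb12 : List (ℕ × List ℤ) :=
  tb12_1 ++ tb12_2 ++ tb12_3 ++ tb12_4 ++ tb12_5 ++ tb12_6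

theorem tb12_ok : ∀ n < 211, Nat.gcd 12 n = 1 → 12 < 2 * n →
    chk 12 (n : ℤ) ((tb12.lookup n).getD []) = true := by
  decide +kernel

end Pool.Agent.Lib.MP_b4205f_al.CH
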