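import Pool.Agent.Lib.MP_b4205f_al.H76.Lift

/-!
Project CHAIN, module WORDS: explicit words whose image at `p/n` is lower triangular.
-/

namespace Pool.Agent.Lib.MP_b4205f_al.CH

open Matrix Pool.Agent.Lib.MP_b4205f_al.H22 Pool.Agent.Lib.MP_b4205f_al.H76

/-- the word with alternating syllables; `false`: the next syllable is a power of the
first generator -/
def wd : Bool → List ℤ → FreeGroup (Fin 2)
  | _, [] => 1
  | false, m :: l => FreeGroup.of 0 ^ m * wd true l
  | true, m :: l => FreeGroup.of 1 ^ m * wd false l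

/-- integer matrix entries of the scaled product; the generators are
`[[n, a m], [0, n]]` and `[[n, 0], [b m, n]]` -/
def ev (a b n : ℤ) : Bool → List ℤ → ℤ × ℤ × ℤ × ℤ
  | _, [] => (1, 0, 0, 1)
  | false, m :: l =>
      let r := ev a b n true l
      (n * r.1 + a * m * r.2.2.1, n * r.2.1 + a * m * r.2.2.2, n * r.2.2.1, n * r.2.2.2)
  | true, m :: l =>
      let r := ev a b n false l
      (n * r.1, n * r.2.1, b * m * r.1 + n * r.2.2.1, b * m * r.2.1 + n * r.2.2.2)

lemma ev_spec (a b n : ℤ) (hn : n ≠ 0) (l : List ℤ) : ∀ t : Bool,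
    (n : ℚ) ^ l.length * mat (FreeGroup.lift ![U ((a : ℚ) / n), L ((b : ℚ) / n)] (wd t l)) 0 0 =
        (ev a b n t l).1 ∧
    (n : ℚ) ^ l.length * mat (FreeGroup.lift ![U ((a : ℚ) / n), L ((b : ℚ) / n)] (wd t l)) 0 1 =
        (ev a b n t l).2.1 ∧
    (n : ℚ) ^ l.length * mat (FreeGroup.lift ![U ((a : ℚ) / n), L ((b : ℚ) / n)] (wd t l)) 1 0 =
        (ev a b n t l).2.2.1 ∧
    (n : ℚ) ^ l.length * mat (FreeGroup.lift ![U ((a : ℚ) / n), L ((b : ℚ) / n)] (wd t l)) 1 1 =
        (ev a b n t l).2.2.2 := by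
  have hn' : (n : ℚ) ≠ 0 := by exact_mod_cast hn
  induction l with
  | nil =>
    intro t
    have h : wd t [] = 1 := by cases t <;> rfl
    have h2 : ev a b n t [] = (1, 0, 0, 1) := by cases t <;> rfl
    rw [h, h2, map_one]
    simp [mat]
  | cons m l ih =>
    intro t
    cases t with
    | false =>
      obtain ⟨h1, h2, h3, h4⟩ := ih true
      have hw : wd false (m :: l) = FreeGroup.of 0 ^ m * wd true l := rfl
      have he : ev a b n false (m :: l) = (n * (ev a b n true l).1 + a * m *
        (ev a b n true l).2.2.1, n * (ev a b n true l).2.1 + a * m * (ev a b n true l).2.2.2,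
        n * (ev a b n true l).2.2.1, n * (ev a b n true l).2.2.2) := rfl
      rw [hw, he, map_mul, map_zpow, FreeGroup.lift_apply_of]
      simp only [Matrix.cons_val_zero]
      rw [U_zpow, mat_mul, mat_U, List.length_cons, pow_succ]
      push_cast
      rw [← h1, ← h2, ← h3, ← h4]
      refine ⟨?_, ?_, ?_, ?_⟩ <;> simp [Matrix.mul_apply, Fin.sum_univ_two] <;> field_simp
    | true =>
      obtain ⟨h1, h2, h3, h4⟩ := ih false
      have hw : wd true (m :: l) = FreeGroup.of 1 ^ m * wd false l := rfl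
      have he : ev a b n true (m :: l) = (n * (ev a b n false l).1,
        n * (ev a b n false l).2.1, b * m * (ev a b n false l).1 + n * (ev a b n false l).2.2.1,
        b * m * (ev a b n false l).2.1 + n * (ev a b n false l).2.2.2) := rfl
      rw [hw, he, map_mul, map_zpow, FreeGroup.lift_apply_of]
      simp only [Matrix.cons_val_one, Matrix.cons_val_zero]
      rw [L_zpow, mat_mul, mat_L, List.length_cons, pow_succ]
      push_cast
      rw [← h1, ← h2, ← h3, ← h4]
      refine ⟨?_, ?_, ?_, ?_⟩ <;> simp [Matrix.mul_apply, Fin.sum_univ_two] <;> field_simp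

/-- the check -/
def chk (p n : ℤ) (l : List ℤ) : Bool :=
  decide ((ev p p n false l).2.1 = 0) && !decide ((ev 1 4 1 false l).2.1 = 0)

theorem not_free_of_chk {p n : ℤ} (hn : n ≠ 0) {l : List ℤ} (h : chk p n l = true) :
    ¬ Function.Injective (phi ((p : ℚ) / n)) := by
  unfold chk at h
  simp only [Bool.and_eq_true, decide_eq_true_eq, Bool.not_eq_true', decide_eq_false_iff_not] at h
  obtain ⟨h1, h2⟩ := h
  have hn' : (n : ℚ) ≠ 0 := by exact_mod_cast hn
  apply not_free_of_word (wd false l) ((p : ℚ) / n) ?_ (t := 4) (by norm_num)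
  · intro h3
    obtain ⟨-, h4, -⟩ := ev_spec 1 4 1 one_ne_zero l false
    apply h2
    push_cast at h4
    simp only [div_one] at h4
    rw [h3, mul_zero] at h4
    exact_mod_cast h4.symm
  · obtain ⟨-, h4, -⟩ := ev_spec p p n hn l false
    rw [h1] at h4
    push_cast at h4
    rcases mul_eq_zero.mp h4 with h5 | h5
    · exact absurd h5 (pow_ne_zero _ hn')
    · exact h5

end Pool.Agent.Lib.MP_b4205f_al.CH
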